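import Pool.Agent.TH0.HF.Small

set_option autoImplicit false

namespace Pool.Agent.TH0.HF

open Finset

variable {r : ℕ}

theorem MIso.refl (m : Fin (r+1) → Fin (r+1) → Fin (r+1)) : MIso m m := ⟨Equiv.refl _, rfl, fun _ _ => rfl⟩

theorem MIso.symm {m m' : Fin (r+1) → Fin (r+1) → Fin (r+1)} (h : MIso m m') : MIso m' m := by
  obtain ⟨e, he0, he⟩ := h
  refine ⟨e.symm, by rw [Equiv.symm_apply_eq, he0], fun a b => ?_⟩
  rw [Equiv.symm_apply_eq, he]; simp

theorem MIso.trans {m m' m'' : Fin (r+1) → Fin (r+1) → Fin (r+1)} (h : MIso m m') (h' : MIso m' m'') : MIso m m'' := by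
  obtain ⟨e, he0, he⟩ := h
  obtain ⟨e', he0', he'⟩ := h'
  refine ⟨e.trans e', by simp [he0, he0'], fun a b => ?_⟩
  simp only [Equiv.trans_apply]
  rw [he, he']

/-- the setoid of tables -/
def mset (r : ℕ) : Setoid (Fin (r+1) → Fin (r+1) → Fin (r+1)) where
  r := MIso
  iseqv := ⟨MIso.refl, MIso.symm, MIso.trans⟩

/-- chosen representatives -/
def Reps (r : ℕ) : Set (Fin (r+1) → Fin (r+1) → Fin (r+1)) :=
  {m | (Quotient.mk (mset r) m).out = m}

theorem Reps_eq {m m' : Fin (r+1) → Fin (r+1) → Fin (r+1)} (hm : m ∈ Reps r) (hm' : m' ∈ Reps r)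
    (h : MIso m m') : m = m' := by
  have h1 : Quotient.mk (mset r) m = Quotient.mk (mset r) m' := Quotient.sound h
  have e1 : (Quotient.mk (mset r) m).out = m := hm
  have e2 : (Quotient.mk (mset r) m').out = m' := hm'
  rw [← e1, ← e2, h1]

theorem exists_rep (m : Fin (r+1) → Fin (r+1) → Fin (r+1)) : ∃ m' ∈ Reps r, MIso m m' := by
  refine ⟨(Quotient.mk (mset r) m).out, ?_, ?_⟩
  · show (Quotient.mk (mset r) (Quotient.mk (mset r) m).out).out = (Quotient.mk (mset r) m).out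
    rw [Quotient.out_eq]
  · have : Quotient.mk (mset r) m = Quotient.mk (mset r) (Quotient.mk (mset r) m).out := (Quotient.out_eq _).symm
    exact Quotient.exact this

open Classical in
theorem pp_ncard :
    {C : Set (Str r) | ∃ p, (IsQ p ∧ PP p) ∧ C = {q | IsQ q ∧ Iso p q}}.ncard ≤
      ((Finset.univ : Finset (Str r)).filter (fun p => (IsH p ∧ PP p) ∧ p.1 ∈ Reps r)).card := by
  set T := (Finset.univ : Finset (Str r)).filter (fun p => (IsH p ∧ PP p) ∧ p.1 ∈ Reps r) with hT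
  calc _ ≤ ((T.image (fun p => {q | IsQ q ∧ Iso p q}) : Finset (Set (Str r))) : Set (Set (Str r))).ncard := by
        apply Set.ncard_le_ncard _ (Set.toFinite _)
        rintro C ⟨p, ⟨⟨K, hK, G, f, hQ⟩, hP⟩, rfl⟩
        obtain ⟨m', hm', e, he0, he⟩ := exists_rep p.1
        let p' : Str r := (m', fun a b => e '' p.2 (e.symm a) (e.symm b))
        have hiso : ∀ a b, e (p.1 a b) = p'.1 (e a) (e b) ∧ e '' p.2 a b = p'.2 (e a) (e b) := by
          intro a b
          refine ⟨he a b, ?_⟩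
          show _ = e '' p.2 (e.symm (e a)) (e.symm (e b))
          rw [Equiv.symm_apply_apply, Equiv.symm_apply_apply]
        have hQ' := hQ.iso e he0 hiso
        have hPP : PP p' := by
          intro x y hx h0
          show e '' p.2 (e.symm x) (e.symm y) = Set.univ
          obtain ⟨z, hz, hz0⟩ : (0 : Fin (r+1)) ∈ e '' p.2 (e.symm x) (e.symm y) := h0
          have hz' : z = 0 := e.injective (hz0.trans he0.symm)
          rw [hz'] at hz
          rw [hP _ _ ?_ hz, Set.image_univ, Equiv.range_eq_univ]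
          intro h
          rw [Equiv.symm_apply_eq, he0] at h
          exact hx h
        rw [Finset.mem_coe, mem_image]
        refine ⟨p', ?_, ?_⟩
        · rw [hT, mem_filter]
          exact ⟨mem_univ _, ⟨hQ'.isH, hPP⟩, hm'⟩
        · have hpp' : Iso p p' := ⟨e, hiso⟩
          ext q
          simp only [Set.mem_ofPred_eq]
          constructor
          · rintro ⟨h1, h2⟩; exact ⟨h1, hpp'.trans h2⟩
          · rintro ⟨h1, h2⟩; exact ⟨h1, hpp'.symm.trans h2⟩
    _ = (T.image (fun p => {q | IsQ q ∧ Iso p q})).card := Set.ncard_coe_finset _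
    _ ≤ T.card := Finset.card_image_le

theorem clsQ_le (hr : 0 < r) : (cls (r := r) IsQ).ncard ≤
    {C : Set (Str r) | ∃ p, (IsQ p ∧ PP p) ∧ C = {q | IsQ q ∧ Iso p q}}.ncard + (16 * r ^ 4 + 1) := by
  refine le_trans ?_ (Nat.add_le_add_left (small_ncard hr (16 * r ^ 4)) _)
  refine le_trans ?_ (Set.ncard_union_le _ _)
  apply Set.ncard_le_ncard _ (Set.toFinite _)
  rintro C ⟨p, ⟨K, hK, G, f, hQ⟩, rfl⟩
  rcases hQ.pp_or_small hr with h | ⟨h1, h2⟩
  · left; exact ⟨p, ⟨⟨K, hK, G, f, hQ⟩, h⟩, rfl⟩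
  · right; exact ⟨p, ⟨K, hK, G, f, hQ, h1, h2⟩, rfl⟩

theorem card_NZ (r : ℕ) : Fintype.card (NZ r) = r := by
  rw [Fintype.card_subtype_compl]; simp

theorem exists_table (hr : 0 < r) : ∃ p : Str r, IsH p := by
  classical
  haveI : NeZero r := ⟨hr.ne'⟩
  let ee : NZ r ≃ Multiplicative (ZMod r) := Fintype.equivOfCardEq (by
    rw [card_NZ]; simp [ZMod.card])
  letI : CommGroup (NZ r) := ee.commGroup
  let m : Fin (r+1) → Fin (r+1) → Fin (r+1) := fun a b =>
    if h : a ≠ 0 ∧ b ≠ 0 then ((⟨a, h.1⟩ : NZ r) * ⟨b, h.2⟩).1 else 0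
  have hmul : ∀ a b : NZ r, (a * b).1 = m a.1 b.1 := by
    intro a b
    show _ = dite _ _ _
    rw [dif_pos ⟨a.2, b.2⟩]
  have h0 : ∀ a, m 0 a = 0 := by
    intro a
    show dite _ _ _ = _
    rw [dif_neg (by simp)]
  have h0' : ∀ a, m a 0 = 0 := by
    intro a
    show dite _ _ _ = _
    rw [dif_neg (by simp)]
  have hM : IsM m := by
    refine ⟨⟨(1 : NZ r).1, (1 : NZ r).2, ?_⟩, ?_, ?_, h0, ?_, ?_⟩
    · intro a
      by_cases ha : a = 0
      · rw [ha]; exact h0' _
      · lift a to NZ r using ha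
        rw [← hmul, one_mul]
    · intro a b
      by_cases ha : a = 0
      · rw [ha, h0, h0']
      by_cases hb : b = 0
      · rw [hb, h0, h0']
      lift a to NZ r using ha
      lift b to NZ r using hb
      rw [← hmul, ← hmul, mul_comm]
    · intro a b c
      by_cases ha : a = 0
      · rw [ha, h0, h0, h0]
      by_cases hb : b = 0
      · rw [hb, h0, h0', h0]
      by_cases hc : c = 0
      · rw [hc, h0', h0']
        exact (h0' _).symm
      lift a to NZ r using ha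
      lift b to NZ r using hb
      lift c to NZ r using hc
      rw [← hmul, ← hmul, ← hmul, ← hmul, mul_assoc]
    · intro a b ha hb
      lift a to NZ r using ha
      lift b to NZ r using hb
      rw [← hmul]
      exact (a * b).2
    · intro a ha
      lift a to NZ r using ha
      refine ⟨(a⁻¹).1, fun c => ?_⟩
      by_cases hc : c = 0
      · rw [hc, h0']
      lift c to NZ r using hc
      rw [← hmul, ← hmul, mul_inv_cancel, one_mul]
  refine ⟨(m, addS (1 : NZ r) Finset.univ), isH_addS 1 Finset.univ m hM hmul (by simp) ?_⟩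
  intro a b c d
  exact ⟨1, mem_univ _, mem_univ _⟩

theorem main_ineq (hr : 0 < r) (hB : Big r) :
    (cls (r := r) IsQ).ncard * 2 ^ (r / 6) ≤
      (r ^ (Nat.log 2 r + 1) * (32 * r ^ 4 + 4)) * (cls (r := r) IsH).ncard ∧ 0 < (cls (r := r) IsH).ncard := by
  classical
  have h1 := clsQ_le hr
  have h2 := pp_ncard (r := r)
  have h3 := total_count hB (Reps r)
  have h4 := card_le_cls ((Finset.univ : Finset (Str r)).filter (fun p => IsH p ∧ p.1 ∈ Reps r))
    (fun p hp => (mem_filter.1 hp).2.1) (by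
      rintro p hp q hq ⟨e, he⟩
      have hp' := (mem_filter.1 hp).2
      have hq' := (mem_filter.1 hq).2
      exact Reps_eq hp'.2 hq'.2 ⟨e, map_zero_of hp'.1.isM hq'.1.isM e (fun a b => (he a b).1), fun a b => (he a b).1⟩)
  obtain ⟨p0, hp0⟩ := exists_table hr
  have h5 := (fiber_count hB (key p0) p0 hp0 rfl).2
  have h6 := card_le_cls ((Finset.univ : Finset (Str r)).filter (fun p => IsH p ∧ key p = key p0))
    (fun p hp => (mem_filter.1 hp).2.1) (by
      intro p hp q hq _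
      exact key_fst ((mem_filter.1 hp).2.2.trans (mem_filter.1 hq).2.2.symm))
  set NQ := (cls (r := r) IsQ).ncard
  set NH := (cls (r := r) IsH).ncard
  set B := r ^ (Nat.log 2 r + 1)
  set TP := ((Finset.univ : Finset (Str r)).filter (fun p => (IsH p ∧ PP p) ∧ p.1 ∈ Reps r)).card
  set TU := ((Finset.univ : Finset (Str r)).filter (fun p => IsH p ∧ p.1 ∈ Reps r)).card
  have h7 : NQ ≤ TP + (16 * r ^ 4 + 1) := h1.trans (Nat.add_le_add_right h2 _)
  have h8 : 2 ^ (r / 6) ≤ 2 * (B * NH) := h5.trans (Nat.mul_le_mul_left _ h6)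
  constructor
  · calc NQ * 2 ^ (r / 6) ≤ (TP + (16 * r ^ 4 + 1)) * 2 ^ (r / 6) := Nat.mul_le_mul_right _ h7
      _ = TP * 2 ^ (r / 6) + (16 * r ^ 4 + 1) * 2 ^ (r / 6) := by ring
      _ ≤ 2 * TU + (16 * r ^ 4 + 1) * (2 * (B * NH)) := Nat.add_le_add h3 (Nat.mul_le_mul_left _ h8)
      _ ≤ 2 * (B * NH) + (16 * r ^ 4 + 1) * (2 * (B * NH)) := Nat.add_le_add_right (Nat.mul_le_mul_left _ h4) _
      _ = _ := by ring
  · rcases Nat.eq_zero_or_pos NH with h | h
    · rw [h] at h8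
      have : 0 < 2 ^ (r / 6) := by positivity
      omega
    · exact h

theorem big_aux (k : ℕ) (hk : 128 ≤ k) : 2 * (24 * k) ^ 4 * 3 ^ k ≤ 4 ^ k := by
  induction k, hk using Nat.le_induction with
  | base => norm_num
  | succ k hk ih =>
    have h1 : 3 * (k + 1) ^ 4 ≤ 4 * k ^ 4 := by
      obtain ⟨j, rfl⟩ := Nat.exists_eq_add_of_le hk
      ring_nf
      nlinarith [sq_nonneg (j : ℤ), Nat.zero_le (j ^ 2), Nat.zero_le (j ^ 3), Nat.zero_le (j ^ 4)]
    calc 2 * (24 * (k + 1)) ^ 4 * 3 ^ (k + 1) = 2 * 24 ^ 4 * 3 ^ k * (3 * (k + 1) ^ 4) := by ring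
      _ ≤ 2 * 24 ^ 4 * 3 ^ k * (4 * k ^ 4) := Nat.mul_le_mul_left _ h1
      _ = 4 * (2 * (24 * k) ^ 4 * 3 ^ k) := by ring
      _ ≤ 4 * 4 ^ k := Nat.mul_le_mul_left _ ih
      _ = 4 ^ (k + 1) := by ring

theorem big_of (hr : 3072 ≤ r) : Big r := by
  intro k hk
  have hk' : 128 ≤ k := by omega
  refine le_trans ?_ (big_aux k hk')
  apply Nat.mul_le_mul_right
  apply Nat.mul_le_mul_left
  exact Nat.pow_le_pow_left hk 4

theorem log_aux (L : ℕ) (hL : 12 ≤ L) : 6 * (L * L + 5 * L + 6) + 5 ≤ 2 ^ (L - 1) := by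
  induction L, hL using Nat.le_induction with
  | base => norm_num
  | succ L hL ih =>
    have : 2 ^ (L + 1 - 1) = 2 * 2 ^ (L - 1) := by
      rw [← pow_succ']
      congr 1
      omega
    rw [this]
    nlinarith

theorem fin_ineq (hr : 3072 ≤ r) : (r ^ (Nat.log 2 r + 1) * (32 * r ^ 4 + 4)) * r ≤ 2 ^ (r / 6) := by
  set L := Nat.log 2 r + 1 with hL
  have h1 : r < 2 ^ L := Nat.lt_pow_succ_log_self (by norm_num) r
  have h2 : 2 ^ (L - 1) ≤ r := by
    rw [hL, Nat.add_sub_cancel]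
    exact Nat.pow_log_le_self 2 (by omega)
  have h3 : 12 ≤ L := by
    by_contra hcon
    have : 2 ^ L ≤ 2 ^ 11 := Nat.pow_le_pow_right (by norm_num) (by omega)
    norm_num at this
    omega
  have h4 := log_aux L h3
  have h5 : L * L + 5 * L + 6 ≤ r / 6 := by omega
  have h6 : 32 * r ^ 4 + 4 ≤ 64 * r ^ 4 := by
    have : 1 ≤ r ^ 4 := Nat.one_le_pow _ _ (by omega)
    omega
  calc (r ^ L * (32 * r ^ 4 + 4)) * r ≤ (r ^ L * (64 * r ^ 4)) * r := by gcongr
    _ = 64 * r ^ L * r ^ 5 := by ring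
    _ ≤ 64 * (2 ^ L) ^ L * (2 ^ L) ^ 5 := by gcongr
    _ = 2 ^ (L * L + 5 * L + 6) := by
        rw [← pow_mul, ← pow_mul, pow_add, pow_add, mul_comm L 5]
        norm_num
        ring
    _ ≤ 2 ^ (r / 6) := Nat.pow_le_pow_right (by norm_num) h5

theorem final : Filter.Tendsto (fun r : ℕ => ((cls (r := r) IsQ).ncard : ℝ) / ((cls (r := r) IsH).ncard : ℝ))
    Filter.atTop (nhds 0) := by
  apply squeeze_zero' (g := fun r : ℕ => 1 / (r : ℝ))
  · exact Filter.Eventually.of_forall (fun r => by positivity)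
  · filter_upwards [Filter.eventually_ge_atTop 3072] with r hr
    have hr0 : 0 < r := by omega
    obtain ⟨h1, h2⟩ := main_ineq hr0 (big_of hr)
    have h3 := fin_ineq hr
    have h4 : (cls (r := r) IsQ).ncard * r ≤ (cls (r := r) IsH).ncard := by
      have hpos : 0 < 2 ^ (r / 6) := by positivity
      apply Nat.le_of_mul_le_mul_right _ hpos
      calc (cls (r := r) IsQ).ncard * r * 2 ^ (r / 6) = ((cls (r := r) IsQ).ncard * 2 ^ (r / 6)) * r := by ring
        _ ≤ ((r ^ (Nat.log 2 r + 1) * (32 * r ^ 4 + 4)) * (cls (r := r) IsH).ncard) * r := Nat.mul_le_mul_right _ h1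
        _ = ((r ^ (Nat.log 2 r + 1) * (32 * r ^ 4 + 4)) * r) * (cls (r := r) IsH).ncard := by ring
        _ ≤ 2 ^ (r / 6) * (cls (r := r) IsH).ncard := Nat.mul_le_mul_right _ h3
        _ = (cls (r := r) IsH).ncard * 2 ^ (r / 6) := by ring
    have h5 : (((cls (r := r) IsQ).ncard : ℝ)) * r ≤ ((cls (r := r) IsH).ncard : ℝ) := by exact_mod_cast h4
    have h6 : (0 : ℝ) < ((cls (r := r) IsH).ncard : ℝ) := by exact_mod_cast h2
    have h7 : (0 : ℝ) < r := by exact_mod_cast hr0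
    rw [div_le_div_iff₀ h6 h7, one_mul]
    exact h5
  · exact tendsto_one_div_atTop_nhds_zero_nat

end Pool.Agent.TH0.HF
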