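import Pool.Agent.TH0.HF.Struct

set_option autoImplicit false

namespace Pool.Agent.TH0.HF

open Finset

section
variable {r : ℕ} [CommGroup (NZ r)]

/-- the hyperaddition attached to a set of orbits -/
def addS (ε : NZ r) (S : Finset (Orb (NZ r))) (x y : Fin (r+1)) : Set (Fin (r+1)) :=
  {z | (x = 0 ∧ z = y) ∨ (y = 0 ∧ z = x) ∨ (∃ (hx : x ≠ 0) (hy : y ≠ 0),
    (z = 0 ∧ (⟨y, hy⟩ : NZ r) = ε * ⟨x, hx⟩) ∨ ∃ hz : z ≠ 0, mk3 (⟨x, hx⟩ : NZ r) ⟨y, hy⟩ (ε * ⟨z, hz⟩) ∈ S)}

variable (ε : NZ r) (S : Finset (Orb (NZ r)))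

theorem addS_zero_left (y : Fin (r+1)) : addS ε S 0 y = {y} := by
  ext z
  simp only [addS, Set.mem_ofPred_eq, Set.mem_singleton_iff]
  constructor
  · rintro (⟨-, h⟩ | ⟨h, h'⟩ | ⟨hx, -⟩)
    · exact h
    · rw [h, h']
    · exact absurd rfl hx
  · intro h; exact Or.inl ⟨by trivial, h⟩

theorem addS_comm (x y : Fin (r+1)) : (hε : ε * ε = 1) → addS ε S x y = addS ε S y x := by
  intro hε
  have key : ∀ x y z : Fin (r+1), z ∈ addS ε S x y → z ∈ addS ε S y x := by
    intro x y z
    simp only [addS, Set.mem_ofPred_eq]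
    rintro (⟨h, h'⟩ | ⟨h, h'⟩ | ⟨hx, hy, h⟩)
    · exact Or.inr (Or.inl ⟨h, h'⟩)
    · exact Or.inl ⟨h, h'⟩
    · refine Or.inr (Or.inr ⟨hy, hx, ?_⟩)
      rcases h with ⟨h, h'⟩ | ⟨hz, h⟩
      · left
        refine ⟨h, ?_⟩
        rw [h', ← mul_assoc, hε, one_mul]
      · right
        exact ⟨hz, by rw [mk3_swap]; exact h⟩
  ext z
  exact ⟨key x y z, key y x z⟩

theorem zero_mem_addS (x y : NZ r) : (0 : Fin (r+1)) ∈ addS ε S x.1 y.1 ↔ y = ε * x := by
  simp only [addS, Set.mem_ofPred_eq]
  constructor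
  · rintro (⟨h, -⟩ | ⟨h, -⟩ | ⟨hx, hy, h⟩)
    · exact absurd h x.2
    · exact absurd h y.2
    · rcases h with ⟨-, h'⟩ | ⟨hz, -⟩
      · exact h'
      · exact absurd rfl hz
  · intro h
    exact Or.inr (Or.inr ⟨x.2, y.2, Or.inl ⟨by trivial, h⟩⟩)

theorem mem_addS (x y z : NZ r) : z.1 ∈ addS ε S x.1 y.1 ↔ mk3 x y (ε * z) ∈ S := by
  simp only [addS, Set.mem_ofPred_eq]
  constructor
  · rintro (⟨h, -⟩ | ⟨h, -⟩ | ⟨hx, hy, h⟩)
    · exact absurd h x.2
    · exact absurd h y.2
    · rcases h with ⟨h, -⟩ | ⟨hz, h⟩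
      · exact absurd h z.2
      · exact h
  · intro h
    exact Or.inr (Or.inr ⟨x.2, y.2, Or.inr ⟨z.2, h⟩⟩)

theorem isH_addS (m : Fin (r+1) → Fin (r+1) → Fin (r+1)) (hm : IsM m)
    (hmul : ∀ a b : NZ r, (a * b).1 = m a.1 b.1) (hε : ε * ε = 1) (hS : Good ε S) :
    IsH ((m, addS ε S) : Str r) := by
  have hm0 : ∀ a, m a 0 = 0 := fun a => (hm.2.1 a 0).trans (hm.2.2.2.1 a)
  have hεε : ∀ a : NZ r, ε * (ε * a) = a := fun a => by rw [← mul_assoc, hε, one_mul]
  have h0r : ∀ x : Fin (r+1), addS ε S x 0 = {x} := fun x => by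
    rw [addS_comm ε S x 0 hε, addS_zero_left]
  have hne : ∀ a b : Fin (r+1), (addS ε S a b).Nonempty := by
    intro a b
    by_cases ha : a = 0
    · subst ha; rw [addS_zero_left]; exact ⟨b, rfl⟩
    by_cases hb : b = 0
    · subst hb; rw [h0r]; exact ⟨a, rfl⟩
    obtain ⟨x, hx, -⟩ := hS ⟨a, ha⟩ ⟨b, hb⟩ 1 1
    refine ⟨(ε * x).1, ?_⟩
    have := (mem_addS ε S ⟨a, ha⟩ ⟨b, hb⟩ (ε * x)).2 (by rw [hεε]; exact hx)
    exact this
  refine ⟨hm.1, hm.2.1, hm.2.2.1, hm.2.2.2.1, hm.2.2.2.2.1, hm.2.2.2.2.2, hne, ?_, ?_, ?_, ?_, ?_, ?_⟩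
  · intro a b; exact addS_comm ε S a b hε
  · -- associativity
    intro a b c
    show (⋃ x ∈ addS ε S a b, addS ε S x c) = ⋃ x ∈ addS ε S b c, addS ε S a x
    by_cases ha : a = 0
    · subst ha
      rw [addS_zero_left]
      simp only [Set.mem_singleton_iff, Set.iUnion_iUnion_eq_left, addS_zero_left, Set.biUnion_of_singleton]
    by_cases hb : b = 0
    · subst hb
      rw [addS_zero_left, h0r]
      simp only [Set.mem_singleton_iff, Set.iUnion_iUnion_eq_left]
    by_cases hc : c = 0
    · subst hc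
      rw [h0r b]
      simp only [Set.mem_singleton_iff, Set.iUnion_iUnion_eq_left, h0r, Set.biUnion_of_singleton]
    -- all nonzero
    lift a to NZ r using ha
    lift b to NZ r using hb
    lift c to NZ r using hc
    ext d
    simp only [Set.mem_iUnion, exists_prop]
    by_cases hd : d = 0
    · subst hd
      have h1 : (∃ x ∈ addS ε S a b, (0 : Fin (r+1)) ∈ addS ε S x c) ↔ mk3 a b c ∈ S := by
        constructor
        · rintro ⟨x, hx, hx'⟩
          by_cases hx0 : x = 0
          · subst hx0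
            rw [addS_zero_left] at hx'
            exact absurd hx'.symm c.2
          · lift x to NZ r using hx0
            rw [zero_mem_addS] at hx'
            rw [mem_addS, ← hx'] at hx
            exact hx
        · intro h
          refine ⟨(ε * c).1, ?_, ?_⟩
          · rw [mem_addS, hεε]; exact h
          · rw [zero_mem_addS, hεε]
      have h2 : (∃ x ∈ addS ε S b c, (0 : Fin (r+1)) ∈ addS ε S a x) ↔ mk3 a b c ∈ S := by
        constructor
        · rintro ⟨x, hx, hx'⟩
          by_cases hx0 : x = 0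
          · subst hx0
            rw [h0r] at hx'
            exact absurd hx'.symm a.2
          · lift x to NZ r using hx0
            rw [zero_mem_addS] at hx'
            rw [mem_addS, hx', hεε, ← mk3_rot] at hx
            exact hx
        · intro h
          refine ⟨(ε * a).1, ?_, ?_⟩
          · rw [mem_addS, hεε, ← mk3_rot]; exact h
          · rw [zero_mem_addS]
      rw [h1, h2]
    · lift d to NZ r using hd
      constructor
      · intro _
        obtain ⟨x, hx, hx'⟩ := hS b c a (ε * d)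
        refine ⟨(ε * x).1, ?_, ?_⟩
        · rw [mem_addS, hεε]; exact hx
        · rw [mem_addS, mk3_swap]; exact hx'
      · intro _
        obtain ⟨x, hx, hx'⟩ := hS a b c (ε * d)
        refine ⟨(ε * x).1, ?_, ?_⟩
        · rw [mem_addS, hεε]; exact hx
        · rw [mem_addS]; exact hx'
  · intro a; exact addS_zero_left ε S a
  · intro a
    show ∃! b, (0 : Fin (r+1)) ∈ addS ε S a b
    by_cases ha : a = 0
    · subst ha
      refine ⟨0, by simp [addS_zero_left], ?_⟩
      intro y hy
      simp only [addS_zero_left] at hy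
      exact hy.symm
    · lift a to NZ r using ha
      refine ⟨(ε * a).1, ?_, ?_⟩
      · show (0 : Fin (r+1)) ∈ addS ε S a.1 (ε * a).1
        rw [zero_mem_addS]
      · intro y hy
        have hy' : (0 : Fin (r+1)) ∈ addS ε S a.1 y := hy
        by_cases hy0 : y = 0
        · subst hy0
          rw [h0r] at hy'
          exact absurd hy'.symm a.2
        · lift y to NZ r using hy0
          rw [zero_mem_addS] at hy'
          rw [hy']
  · -- reversibility
    intro a b c d h1 h2
    have h1' : a ∈ addS ε S b c := h1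
    have h2' : (0 : Fin (r+1)) ∈ addS ε S b d := h2
    show c ∈ addS ε S a d
    by_cases hb : b = 0
    · subst hb
      rw [addS_zero_left] at h1' h2'
      have e1 : a = c := h1'
      have e2 : (0 : Fin (r+1)) = d := h2'
      rw [← e2, h0r, e1]; rfl
    lift b to NZ r using hb
    by_cases hd : d = 0
    · subst hd
      rw [h0r] at h2'
      exact absurd h2'.symm b.2
    lift d to NZ r using hd
    rw [zero_mem_addS] at h2'
    by_cases hc : c = 0
    · subst hc
      rw [h0r] at h1'
      have e1 : a = b.1 := h1'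
      rw [e1, zero_mem_addS]; exact h2'
    lift c to NZ r using hc
    by_cases ha : a = 0
    · subst ha
      rw [zero_mem_addS] at h1'
      rw [addS_zero_left, h2', h1']; rfl
    lift a to NZ r using ha
    rw [mem_addS] at h1' ⊢
    -- mk3 b c (ε a) ∈ S, want mk3 a d (ε c) with d = ε b
    rw [h2']
    have : mk3 a (ε * b) (ε * c) = mk3 b c (ε * a) := by
      rw [← mk3_smul ε a (ε * b) (ε * c), hεε, hεε, mk3_rot]
    rw [this]; exact h1'
  · -- distributivity
    intro a b c
    show (fun x => m a x) '' addS ε S b c = addS ε S (m a b) (m a c)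
    by_cases ha : a = 0
    · subst ha
      have : (fun x => m 0 x) = fun _ : Fin (r+1) => (0 : Fin (r+1)) := by
        funext x; exact hm.2.2.2.1 x
      rw [this, hm.2.2.2.1, hm.2.2.2.1, addS_zero_left, (hne b c).image_const]
    by_cases hb : b = 0
    · subst hb
      rw [addS_zero_left, hm0, addS_zero_left, Set.image_singleton]
    by_cases hc : c = 0
    · subst hc
      rw [h0r, hm0, h0r, Set.image_singleton]
    lift a to NZ r using ha
    lift b to NZ r using hb
    lift c to NZ r using hc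
    rw [← hmul, ← hmul]
    ext z
    rw [Set.mem_image]
    constructor
    · rintro ⟨x, hx, rfl⟩
      by_cases hx0 : x = 0
      · subst hx0
        simp only [hm0]
        rw [zero_mem_addS] at hx ⊢
        rw [hx, mul_left_comm]
      · lift x to NZ r using hx0
        show m a.1 x.1 ∈ _
        rw [← hmul, mem_addS]
        rw [mem_addS] at hx
        rw [mul_left_comm ε a x, mk3_smul]; exact hx
    · intro hz
      by_cases hz0 : z = 0
      · subst hz0
        rw [zero_mem_addS] at hz
        refine ⟨0, ?_, hm0 _⟩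
        rw [zero_mem_addS]
        rw [mul_left_comm] at hz
        exact mul_left_cancel hz
      · lift z to NZ r using hz0
        refine ⟨(a⁻¹ * z).1, ?_, ?_⟩
        · rw [mem_addS]
          rw [mem_addS] at hz
          have : mk3 b c (ε * (a⁻¹ * z)) = mk3 (a * b) (a * c) (ε * z) := by
            rw [← mk3_smul a b c]
            congr 1
            rw [mul_left_comm a ε, mul_inv_cancel_left]
          rw [this]; exact hz
        · show m a.1 (a⁻¹ * z).1 = z.1
          rw [← hmul, mul_inv_cancel_left]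

theorem addS_injective (m : Fin (r+1) → Fin (r+1) → Fin (r+1)) (hε : ε * ε = 1) :
    Function.Injective (fun S : Finset (Orb (NZ r)) => ((m, addS ε S) : Str r)) := by
  intro S S' h
  have h' : addS ε S = addS ε S' := (Prod.mk.inj h).2
  ext o
  obtain ⟨t, rfl⟩ := Quotient.exists_rep o
  have e : Quotient.mk (tset (NZ r)) t = mk3 (t 0) (t 1) (ε * (ε * t 2)) := by
    rw [← mul_assoc, hε, one_mul]
    unfold mk3
    congr 1
    ext i
    fin_cases i <;> rfl
  have e' : Quotient.mk (tset (NZ r)) t ∈ S ↔ Quotient.mk (tset (NZ r)) t ∈ S' := by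
    rw [e, ← mem_addS, ← mem_addS, h']
  exact e'

end

end Pool.Agent.TH0.HF
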