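import Mathlib

set_option autoImplicit false

namespace Pool.Agent.TH0.HF

open Finset ComplexConjugate

section
variable {K : Type} [Field K] [Fintype K] [DecidableEq K]

/-- exponential sum over `H` -/
noncomputable def SS (ψ : AddChar K ℂ) (H : Finset K) (a : K) : ℂ := ∑ g ∈ H, ψ (a * g)

theorem exists_prim : ∃ ψ : AddChar K ℂ, ψ.IsPrimitive := by
  obtain ⟨ψ, hψ⟩ := AddChar.exists_apply_ne_zero.2 (one_ne_zero : (1 : K) ≠ 0)
  refine ⟨ψ, AddChar.IsPrimitive.of_ne_one ?_⟩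
  intro h
  apply hψ
  rw [h]; simp

theorem main_id {ψ : AddChar K ℂ} (hψ : ψ.IsPrimitive) (H : Finset K) (c : K) :
    ∑ a : K, (‖SS ψ H a‖ ^ 2 : ℝ) * ψ (-(a * c)) =
      (Fintype.card K : ℂ) * (((H ×ˢ H).filter (fun p => p.1 - p.2 = c)).card : ℂ) := by
  have h1 : ∀ a : K, ((‖SS ψ H a‖ ^ 2 : ℝ) : ℂ) * ψ (-(a * c)) =
      ∑ p ∈ H ×ˢ H, ψ (a * (p.1 - p.2 - c)) := by
    intro a
    have e : ((‖SS ψ H a‖ ^ 2 : ℝ) : ℂ) = SS ψ H a * conj (SS ψ H a) := by
      rw [Complex.mul_conj, Complex.normSq_eq_norm_sq]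
    rw [e, Finset.sum_product]
    simp only [SS, map_sum, ← AddChar.map_neg_eq_conj]
    rw [Finset.sum_mul_sum, Finset.sum_mul]
    apply Finset.sum_congr rfl
    intro g _
    rw [Finset.sum_mul]
    apply Finset.sum_congr rfl
    intro h _
    rw [← AddChar.map_add_eq_mul, ← AddChar.map_add_eq_mul]
    congr 1; ring
  simp only [h1]
  rw [Finset.sum_comm]
  have h2 : ∀ p ∈ H ×ˢ H, ∑ a : K, ψ (a * (p.1 - p.2 - c)) = if p.1 - p.2 = c then (Fintype.card K : ℂ) else 0 := by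
    intro p _
    rw [AddChar.sum_mulShift _ hψ]
    simp only [sub_eq_zero]
    split_ifs <;> simp
  rw [Finset.sum_congr rfl h2, ← Finset.sum_filter, Finset.sum_const, nsmul_eq_mul, mul_comm]

theorem parseval {ψ : AddChar K ℂ} (hψ : ψ.IsPrimitive) (H : Finset K) :
    ∑ a : K, ‖SS ψ H a‖ ^ 2 = (Fintype.card K : ℝ) * H.card := by
  have h := main_id hψ H 0
  simp only [mul_zero, neg_zero, AddChar.map_zero_eq_one, mul_one] at h
  have h2 : ((H ×ˢ H).filter (fun p => p.1 - p.2 = 0)).card = H.card := by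
    have : (H ×ˢ H).filter (fun p => p.1 - p.2 = 0) = H.image (fun x => (x, x)) := by
      ext ⟨x, y⟩
      simp only [mem_filter, mem_product, mem_image, Prod.mk.injEq, sub_eq_zero]
      constructor
      · rintro ⟨⟨hx, hy⟩, rfl⟩; exact ⟨x, hx, rfl, rfl⟩
      · rintro ⟨z, hz, rfl, rfl⟩; exact ⟨⟨hz, hz⟩, rfl⟩
    rw [this, Finset.card_image_of_injective]
    intro x y h; exact (Prod.mk.inj h).1
  rw [h2] at h
  exact_mod_cast h

theorem SS_zero (ψ : AddChar K ℂ) (H : Finset K) : SS ψ H 0 = H.card := by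
  simp [SS]

/-- `H` is a multiplicative subgroup -/
structure IsSub (H : Finset K) : Prop where
  zero : (0 : K) ∉ H
  mul : ∀ g ∈ H, ∀ x : K, g * x ∈ H ↔ x ∈ H

theorem SS_mul {ψ : AddChar K ℂ} {H : Finset K} (hH : IsSub H) (a g : K) (hg : g ∈ H) :
    SS ψ H (a * g) = SS ψ H a := by
  have hg0 : g ≠ 0 := fun h => hH.zero (h ▸ hg)
  unfold SS
  apply Finset.sum_nbij (fun x => g * x)
  · intro x hx; exact (hH.mul g hg x).2 hx
  · intro x _ y _ h; exact mul_left_cancel₀ hg0 h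
  · intro y hy
    refine ⟨g⁻¹ * y, ?_, ?_⟩
    · have : g * (g⁻¹ * y) = y := by field_simp
      rw [Finset.mem_coe, ← hH.mul g hg, this]; exact hy
    · simp only; field_simp
  · intro x _; rw [mul_assoc]

theorem SS_bound {ψ : AddChar K ℂ} (hψ : ψ.IsPrimitive) {H : Finset K} (hH : IsSub H)
    (h1 : H.Nonempty) (a : K) (ha : a ≠ 0) :
    ‖SS ψ H a‖ ^ 2 ≤ (Fintype.card K : ℝ) := by
  have hp := parseval hψ H
  have hsub : H.image (fun g => a * g) ⊆ Finset.univ := Finset.subset_univ _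
  have h2 : ∑ b ∈ H.image (fun g => a * g), ‖SS ψ H b‖ ^ 2 ≤ ∑ b : K, ‖SS ψ H b‖ ^ 2 :=
    Finset.sum_le_sum_of_subset_of_nonneg hsub (fun _ _ _ => by positivity)
  rw [Finset.sum_image (fun x _ y _ h => mul_left_cancel₀ ha h)] at h2
  have h3 : ∑ x ∈ H, ‖SS ψ H (a * x)‖ ^ 2 = H.card * ‖SS ψ H a‖ ^ 2 := by
    rw [Finset.sum_congr rfl (fun g hg => by rw [SS_mul hH a g hg]), Finset.sum_const, nsmul_eq_mul]
  rw [h3, hp] at h2
  have h4 : (0 : ℝ) < H.card := by exact_mod_cast h1.card_pos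
  nlinarith

theorem fin_diff_aux {H : Finset K} (hH : IsSub H) (h1 : H.Nonempty) (c : K) (hc : c ≠ 0)
    (hbig : (Fintype.card K : ℝ) * Real.sqrt (Fintype.card K) < (H.card : ℝ) ^ 2) :
    ∃ g ∈ H, ∃ h ∈ H, g - h = c := by
  obtain ⟨ψ, hψ⟩ := exists_prim (K := K)
  by_contra hcon
  push Not at hcon
  have hempty : (H ×ˢ H).filter (fun p => p.1 - p.2 = c) = ∅ := by
    rw [Finset.filter_eq_empty_iff]
    rintro ⟨g, h⟩ hgh
    rw [Finset.mem_product] at hgh
    exact hcon g hgh.1 h hgh.2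
  have h := main_id hψ H c
  rw [hempty] at h
  simp only [Finset.card_empty, Nat.cast_zero, mul_zero] at h
  rw [← Finset.add_sum_erase _ _ (Finset.mem_univ (0 : K))] at h
  rw [SS_zero] at h
  simp only [zero_mul, neg_zero, AddChar.map_zero_eq_one, mul_one] at h
  -- the other part is invariant
  set X : ℂ := ∑ a ∈ Finset.univ.erase (0 : K), (‖SS ψ H a‖ ^ 2 : ℝ) * ψ (-(a * c)) with hX
  have hXg : ∀ g ∈ H, X = ∑ a ∈ Finset.univ.erase (0 : K), (‖SS ψ H a‖ ^ 2 : ℝ) * ψ ((-c * a) * g) := by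
    intro g hg
    have hg0 : g ≠ 0 := fun h => hH.zero (h ▸ hg)
    symm
    apply Finset.sum_nbij (fun a => a * g)
    · intro a ha
      rw [Finset.mem_erase] at ha ⊢
      exact ⟨mul_ne_zero ha.1 hg0, Finset.mem_univ _⟩
    · intro x _ y _ h; exact mul_right_cancel₀ hg0 h
    · intro y hy
      refine ⟨y * g⁻¹, ?_, ?_⟩
      · have := Finset.ne_of_mem_erase (Finset.mem_coe.1 hy)
        rw [Finset.mem_coe, Finset.mem_erase]
        exact ⟨mul_ne_zero this (inv_ne_zero hg0), Finset.mem_univ _⟩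
      · simp only; field_simp
    · intro a _
      rw [SS_mul hH a g hg]
      congr 2; ring
  have hX2 : (H.card : ℂ) * X = ∑ a ∈ Finset.univ.erase (0 : K), (‖SS ψ H a‖ ^ 2 : ℝ) * SS ψ H (-c * a) := by
    rw [← nsmul_eq_mul, ← Finset.sum_const, Finset.sum_congr rfl hXg, Finset.sum_comm]
    apply Finset.sum_congr rfl
    intro a _
    rw [← Finset.mul_sum]
    rfl
  have hq : (0 : ℝ) ≤ Real.sqrt (Fintype.card K) := Real.sqrt_nonneg _
  have hX3 : (H.card : ℝ) * ‖X‖ ≤ Real.sqrt (Fintype.card K) * ((Fintype.card K : ℝ) * H.card) := by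
    have e : (H.card : ℝ) * ‖X‖ = ‖(H.card : ℂ) * X‖ := by
      rw [norm_mul, Complex.norm_natCast]
    rw [e, hX2]
    calc ‖∑ a ∈ Finset.univ.erase (0 : K), ((‖SS ψ H a‖ ^ 2 : ℝ) : ℂ) * SS ψ H (-c * a)‖
        ≤ ∑ a ∈ Finset.univ.erase (0 : K), ‖((‖SS ψ H a‖ ^ 2 : ℝ) : ℂ) * SS ψ H (-c * a)‖ := norm_sum_le _ _
      _ ≤ ∑ a ∈ Finset.univ.erase (0 : K), ‖SS ψ H a‖ ^ 2 * Real.sqrt (Fintype.card K) := by
          apply Finset.sum_le_sum
          intro a ha
          rw [norm_mul, Complex.norm_real, Real.norm_of_nonneg (by positivity)]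
          apply mul_le_mul_of_nonneg_left _ (by positivity)
          apply Real.le_sqrt_of_sq_le
          exact SS_bound hψ hH h1 _ (mul_ne_zero (neg_ne_zero.2 hc) (Finset.ne_of_mem_erase ha))
      _ ≤ ∑ a : K, ‖SS ψ H a‖ ^ 2 * Real.sqrt (Fintype.card K) :=
          Finset.sum_le_sum_of_subset_of_nonneg (Finset.erase_subset _ _) (fun _ _ _ => by positivity)
      _ = Real.sqrt (Fintype.card K) * ((Fintype.card K : ℝ) * H.card) := by
          rw [← Finset.sum_mul, parseval hψ H]; ring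
  have h4 : (0 : ℝ) < H.card := by exact_mod_cast h1.card_pos
  have hX4 : ‖X‖ ≤ Real.sqrt (Fintype.card K) * (Fintype.card K : ℝ) := by
    by_contra hlt
    push Not at hlt
    nlinarith
  have hX5 : ‖X‖ = (H.card : ℝ) ^ 2 := by
    have : X = -((H.card : ℂ) ^ 2) := by
      have e : ((‖(H.card : ℂ)‖ ^ 2 : ℝ) : ℂ) = (H.card : ℂ) ^ 2 := by
        rw [Complex.norm_natCast]; push_cast; rfl
      rw [e] at h
      linear_combination h
    rw [this, norm_neg, norm_pow, Complex.norm_natCast]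
  rw [hX5] at hX4
  linarith

end

end Pool.Agent.TH0.HF
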