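import Pool.Agent.TH0.HF.Inf2
import Pool.Agent.TH0.HF.Finf

set_option autoImplicit false

namespace Pool.Agent.TH0.HF

open Finset

section
variable {K : Type} [Field K] {r : ℕ} (G : Subgroup Kˣ) (f : K → Fin (r + 1))

/-- the elements of `G` as a finset of `K` -/
noncomputable def Hs [Fintype K] : Finset K := by
  classical exact Finset.univ.filter (fun x => ∃ g ∈ G, (g : K) = x)

theorem mem_Hs [Fintype K] (x : K) : x ∈ Hs G ↔ ∃ g ∈ G, (g : K) = x := by
  classical
  simp [Hs]

theorem Hs_isSub [Fintype K] : IsSub (Hs G) := by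
  constructor
  · intro h
    obtain ⟨g, -, hg⟩ := (mem_Hs G _).1 h
    exact g.ne_zero hg
  · intro g hg x
    obtain ⟨u, hu, rfl⟩ := (mem_Hs G _).1 hg
    rw [mem_Hs, mem_Hs]
    constructor
    · rintro ⟨w, hw, hwx⟩
      refine ⟨u⁻¹ * w, G.mul_mem (G.inv_mem hu) hw, ?_⟩
      push_cast
      rw [hwx]
      have := u.ne_zero
      field_simp
    · rintro ⟨w, hw, rfl⟩
      exact ⟨u * w, G.mul_mem hu hw, by push_cast; rfl⟩

theorem Hs_nonempty [Fintype K] : (Hs G).Nonempty := ⟨1, (mem_Hs G _).2 ⟨1, G.one_mem, by simp⟩⟩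

theorem card_field [Fintype K] (hsurj : Function.Surjective f) (hf0 : f 0 = 0)
    (hf : ∀ x y : K, f x = f y ↔ ∃ g ∈ G, y = x * (g : K)) :
    Fintype.card K = 1 + r * (Hs G).card := by
  classical
  choose rep hrep using hsurj
  have h1 : (Finset.univ : Finset K).card = ∑ a ∈ (Finset.univ : Finset (Fin (r + 1))), ((Finset.univ : Finset K).filter (fun x => f x = a)).card := by
    apply Finset.card_eq_sum_card_fiberwise
    intro n _
    simp
  rw [Finset.card_univ] at h1
  rw [h1, ← Finset.add_sum_erase _ _ (Finset.mem_univ (0 : Fin (r + 1)))]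
  congr 1
  · rw [Finset.card_eq_one]
    refine ⟨0, ?_⟩
    ext x
    simp only [mem_filter, mem_univ, true_and, mem_singleton]
    constructor
    · intro h
      by_contra hx
      exact f_ne_zero G f hf0 hf hx h
    · rintro rfl; exact hf0
  · have h2 : ∀ a ∈ Finset.univ.erase (0 : Fin (r + 1)), ((Finset.univ : Finset K).filter (fun x => f x = a)).card = (Hs G).card := by
      intro a ha
      have ha0 : a ≠ 0 := Finset.ne_of_mem_erase ha
      have hrep0 : rep a ≠ 0 := by
        intro h0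
        have := hrep a
        rw [h0, hf0] at this
        exact ha0 this.symm
      have : (Finset.univ : Finset K).filter (fun x => f x = a) = (Hs G).image (fun g => rep a * g) := by
        ext x
        simp only [mem_filter, mem_univ, true_and, mem_image, mem_Hs]
        constructor
        · intro h
          obtain ⟨g, hg, hx⟩ := (hf (rep a) x).1 (by rw [hrep a, h])
          exact ⟨g, ⟨g, hg, rfl⟩, hx.symm⟩
        · rintro ⟨_, ⟨g, hg, rfl⟩, rfl⟩
          exact ((hf (rep a) _).2 ⟨g, hg, rfl⟩).symm.trans (hrep a)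
      rw [this, Finset.card_image_of_injective]
      intro x y h
      exact mul_left_cancel₀ hrep0 h
    rw [Finset.sum_congr rfl h2, Finset.sum_const]
    simp

theorem fin_diff [Finite K] (hsurj : Function.Surjective f) (hf0 : f 0 = 0)
    (hf : ∀ x y : K, f x = f y ↔ ∃ g ∈ G, y = x * (g : K)) (hr : 0 < r)
    (hbig : 16 * r ^ 4 < Nat.card K) (c : K) (hc : c ≠ 0) :
    ∃ g ∈ G, ∃ h ∈ G, (g : K) - h = c := by
  classical
  have := Fintype.ofFinite K
  have hcard := card_field G f hsurj hf0 hf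
  rw [Nat.card_eq_fintype_card] at hbig
  obtain ⟨g, hg, h, hh, hgh⟩ := fin_diff_aux (Hs_isSub G) (Hs_nonempty G) c hc (by
    set q := Fintype.card K with hq
    set n := (Hs G).card with hn
    have e1 : (q : ℝ) = 1 + r * n := by exact_mod_cast hcard
    have e2 : (16 : ℝ) * r ^ 4 < q := by exact_mod_cast hbig
    have hr' : (1 : ℝ) ≤ r := by exact_mod_cast hr
    set s := Real.sqrt (q : ℝ) with hs
    have hq0 : (0 : ℝ) ≤ q := Nat.cast_nonneg _
    have hs2 : s ^ 2 = q := Real.sq_sqrt hq0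
    have hs0 : 0 ≤ s := Real.sqrt_nonneg _
    have h1 : 4 * (r : ℝ) ^ 2 < s := by
      apply Real.lt_sqrt_of_sq_lt
      nlinarith
    have h4 : (4 : ℝ) < s := by nlinarith
    -- (q-1)^2 > r^2 q s
    have h2 : (r : ℝ) ^ 2 * (q * s) < (r * n) ^ 2 := by
      have : (r : ℝ) * n = s ^ 2 - 1 := by rw [hs2, e1]; ring
      rw [this, ← hs2]
      have h5 : (r : ℝ) ^ 2 * (s ^ 2 * s) < s / 4 * (s ^ 2 * s) := by
        apply mul_lt_mul_of_pos_right _ (by positivity)
        linarith
      have h6 : s / 4 * (s ^ 2 * s) ≤ (s ^ 2 - 1) ^ 2 := by nlinarith [sq_nonneg (s ^ 2 - 2)]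
      linarith
    have hr2 : (0 : ℝ) < r ^ 2 := by positivity
    have h3 : (r : ℝ) ^ 2 * (q * s) < r ^ 2 * n ^ 2 := by rw [← mul_pow]; exact h2
    exact lt_of_mul_lt_mul_left h3 hr2.le)
  obtain ⟨g', hg', rfl⟩ := (mem_Hs G _).1 hg
  obtain ⟨h', hh', rfl⟩ := (mem_Hs G _).1 hh
  exact ⟨g', hg', h', hh', hgh⟩

end

end Pool.Agent.TH0.HF
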