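import Pool.Agent.TH0.HF.Struct
import Pool.Agent.TH0.HF.Fin2

set_option autoImplicit false

namespace Pool.Agent.TH0.HF

/-- data of a quotient hyperfield -/
def QD {r : ℕ} (p : Str r) (K : Type) [Field K] (G : Subgroup Kˣ) (f : K → Fin (r+1)) : Prop :=
  Function.Surjective f ∧ f 0 = 0 ∧
                (∀ x y : K, f x = f y ↔ ∃ g ∈ G, y = x * (g : K)) ∧
                (∀ x y : K, f (x * y) = p.1 (f x) (f y)) ∧
                (∀ x y : K, p.2 (f x) (f y) = {z | ∃ g ∈ G, ∃ h ∈ G, z = f (x * (g : K) + y * (h : K))})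

/-- quotient hyperfields -/
def IsQ {r : ℕ} (p : Str r) : Prop :=
  ∃ (K : Type) (_ : Field K), ∃ G : Subgroup Kˣ, ∃ f : K → Fin (r+1), QD p K G f

section
variable {r : ℕ} {p : Str r} {K : Type} [Field K] {G : Subgroup Kˣ} {f : K → Fin (r+1)}

theorem QD.mem (h : QD p K G f) (x y : K) (z : Fin (r+1)) :
    z ∈ p.2 (f x) (f y) ↔ ∃ g ∈ G, ∃ k ∈ G, z = f (x * (g : K) + y * (k : K)) := by
  rw [h.2.2.2.2 x y]; rfl

theorem QD.f_smul (h : QD p K G f) (x : K) (g : Kˣ) (hg : g ∈ G) : f (x * g) = f x :=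
  ((h.2.2.1 x (x * g)).2 ⟨g, hg, rfl⟩).symm

theorem QD.f_ne (h : QD p K G f) {x : K} (hx : x ≠ 0) : f x ≠ 0 :=
  f_ne_zero G f h.2.1 h.2.2.1 hx

theorem QD.f_eq_zero (h : QD p K G f) {x : K} : f x = 0 ↔ x = 0 := by
  constructor
  · intro hx; by_contra h0; exact h.f_ne h0 hx
  · rintro rfl; exact h.2.1

theorem QD.zero_mem (h : QD p K G f) (x y : K) : (0 : Fin (r+1)) ∈ p.2 (f x) (f y) ↔ f y = f (-x) := by
  rw [h.mem]
  constructor
  · rintro ⟨g, hg, k, hk, h0⟩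
    have h1 := h.f_eq_zero.1 h0.symm
    rw [h.2.2.1]
    refine ⟨k * g⁻¹, G.mul_mem hk (G.inv_mem hg), ?_⟩
    have hg0 := g.ne_zero
    push_cast
    field_simp
    linear_combination -h1
  · intro h1
    obtain ⟨g, hg, hgx⟩ := (h.2.2.1 y (-x)).1 h1
    refine ⟨1, G.one_mem, g, hg, ?_⟩
    rw [← hgx]
    simp [h.2.1]

theorem QD.isH (h : QD p K G f) : IsH p := by
  obtain ⟨hs, h0, hf, hm, ha⟩ := h
  have h : QD p K G f := ⟨hs, h0, hf, hm, ha⟩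
  refine ⟨⟨f 1, h.f_ne one_ne_zero, ?_⟩, ?_, ?_, ?_, ?_, ?_, ?_, ?_, ?_, ?_, ?_, ?_, ?_⟩
  · intro a
    obtain ⟨x, rfl⟩ := hs a
    rw [← hm, one_mul]
  · intro a b
    obtain ⟨x, rfl⟩ := hs a
    obtain ⟨y, rfl⟩ := hs b
    rw [← hm, ← hm, mul_comm]
  · intro a b c
    obtain ⟨x, rfl⟩ := hs a
    obtain ⟨y, rfl⟩ := hs b
    obtain ⟨z, rfl⟩ := hs c
    rw [← hm, ← hm, ← hm, ← hm, mul_assoc]
  · intro a
    obtain ⟨x, rfl⟩ := hs a
    rw [← h0, ← hm, zero_mul]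
  · intro a b ha0 hb0
    obtain ⟨x, rfl⟩ := hs a
    obtain ⟨y, rfl⟩ := hs b
    rw [← hm]
    apply h.f_ne
    apply mul_ne_zero
    · rintro rfl; exact ha0 h0
    · rintro rfl; exact hb0 h0
  · intro a ha0
    obtain ⟨x, rfl⟩ := hs a
    have hx : x ≠ 0 := by rintro rfl; exact ha0 h0
    refine ⟨f x⁻¹, fun c => ?_⟩
    obtain ⟨z, rfl⟩ := hs c
    rw [← hm, ← hm, mul_inv_cancel₀ hx, one_mul]
  · intro a b
    obtain ⟨x, rfl⟩ := hs a
    obtain ⟨y, rfl⟩ := hs b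
    exact ⟨f (x * (1 : Kˣ) + y * (1 : Kˣ)), (h.mem x y _).2 ⟨1, G.one_mem, 1, G.one_mem, rfl⟩⟩
  · intro a b
    obtain ⟨x, rfl⟩ := hs a
    obtain ⟨y, rfl⟩ := hs b
    ext z
    rw [h.mem, h.mem]
    constructor
    · rintro ⟨g, hg, k, hk, e⟩; exact ⟨k, hk, g, hg, e.trans (congrArg f (add_comm _ _))⟩
    · rintro ⟨g, hg, k, hk, e⟩; exact ⟨k, hk, g, hg, e.trans (congrArg f (add_comm _ _))⟩
  · intro a b c
    obtain ⟨x, rfl⟩ := hs a
    obtain ⟨y, rfl⟩ := hs b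
    obtain ⟨z, rfl⟩ := hs c
    ext v
    simp only [Set.mem_iUnion, exists_prop]
    constructor
    · rintro ⟨w, hw, hv⟩
      obtain ⟨g, hg, k, hk, rfl⟩ := (h.mem x y w).1 hw
      obtain ⟨g', hg', k', hk', rfl⟩ := (h.mem _ z v).1 hv
      refine ⟨f (y * ((k * g' : Kˣ) : K) + z * k'), (h.mem _ _ _).2 ⟨_, G.mul_mem hk hg', _, hk', rfl⟩, ?_⟩
      refine (h.mem _ _ _).2 ⟨g * g', G.mul_mem hg hg', 1, G.one_mem, ?_⟩
      congr 1
      push_cast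
      ring
    · rintro ⟨w, hw, hv⟩
      obtain ⟨g, hg, k, hk, rfl⟩ := (h.mem y z w).1 hw
      obtain ⟨g', hg', k', hk', rfl⟩ := (h.mem x _ v).1 hv
      refine ⟨f (x * g' + y * ((g * k' : Kˣ) : K)), (h.mem _ _ _).2 ⟨_, hg', _, G.mul_mem hg hk', rfl⟩, ?_⟩
      refine (h.mem _ _ _).2 ⟨1, G.one_mem, k * k', G.mul_mem hk hk', ?_⟩
      congr 1
      push_cast
      ring
  · intro a
    obtain ⟨x, rfl⟩ := hs a
    ext z
    rw [← h0, h.mem, Set.mem_singleton_iff]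
    constructor
    · rintro ⟨g, hg, k, hk, rfl⟩
      rw [zero_mul, zero_add, h.f_smul x k hk]
    · rintro rfl
      refine ⟨1, G.one_mem, 1, G.one_mem, ?_⟩
      simp
  · intro a
    obtain ⟨x, rfl⟩ := hs a
    refine ⟨f (-x), (h.zero_mem x (-x)).2 rfl, ?_⟩
    intro b hb
    obtain ⟨y, rfl⟩ := hs b
    exact (h.zero_mem x y).1 hb
  · intro a b c d h1 h2
    obtain ⟨x, rfl⟩ := hs b
    obtain ⟨y, rfl⟩ := hs c
    obtain ⟨w, rfl⟩ := hs d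
    obtain ⟨g, hg, k, hk, rfl⟩ := (h.mem x y a).1 h1
    rw [(h.zero_mem x w).1 h2]
    refine (h.mem _ _ _).2 ⟨k⁻¹, G.inv_mem hk, g * k⁻¹, G.mul_mem hg (G.inv_mem hk), ?_⟩
    congr 1
    have := k.ne_zero
    push_cast
    field_simp
    ring
  · intro a b c
    obtain ⟨z, rfl⟩ := hs a
    obtain ⟨x, rfl⟩ := hs b
    obtain ⟨y, rfl⟩ := hs c
    rw [← hm, ← hm]
    ext v
    rw [h.mem, Set.mem_image]
    constructor
    · rintro ⟨w, hw, rfl⟩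
      obtain ⟨g, hg, k, hk, rfl⟩ := (h.mem x y w).1 hw
      refine ⟨g, hg, k, hk, ?_⟩
      show p.1 (f z) _ = _
      rw [← hm]
      congr 1
      ring
    · rintro ⟨g, hg, k, hk, rfl⟩
      refine ⟨f (x * g + y * k), (h.mem _ _ _).2 ⟨g, hg, k, hk, rfl⟩, ?_⟩
      show p.1 (f z) _ = _
      rw [← hm]
      congr 1
      ring

theorem QD.pp (h : QD p K G f) (hd : ∀ c : K, c ≠ 0 → ∃ g ∈ G, ∃ k ∈ G, (g : K) - k = c) : PP p := by
  intro a b ha hab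
  obtain ⟨x, rfl⟩ := h.1 a
  obtain ⟨y, rfl⟩ := h.1 b
  rw [(h.zero_mem x y).1 hab] at *
  have hx : x ≠ 0 := by rintro rfl; exact ha h.2.1
  rw [Set.eq_univ_iff_forall]
  intro v
  obtain ⟨z, rfl⟩ := h.1 v
  rw [h.mem]
  by_cases hz : z = 0
  · subst hz
    exact ⟨1, G.one_mem, 1, G.one_mem, by simp⟩
  · obtain ⟨g, hg, k, hk, e⟩ := hd (z / x) (div_ne_zero hz hx)
    refine ⟨g, hg, k, hk, ?_⟩
    congr 1
    have : z = x * (z / x) := by field_simp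
    rw [this, ← e]
    ring

theorem QD.pp_or_small (h : QD p K G f) (hr : 0 < r) : PP p ∨ (Finite K ∧ Nat.card K ≤ 16 * r ^ 4) := by
  rcases finite_or_infinite K with hK | hK
  · by_cases hb : 16 * r ^ 4 < Nat.card K
    · left
      exact h.pp (fun c hc => fin_diff G f h.1 h.2.1 h.2.2.1 hr hb c hc)
    · right
      exact ⟨hK, not_lt.1 hb⟩
  · left
    exact h.pp (fun c hc => inf_diff G f h.1 h.2.1 h.2.2.1 hr c hc)

end

end Pool.Agent.TH0.HF
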