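import Pool.Agent.TH0.HF.Fib
import Pool.Agent.TH0.HF.Quo

set_option autoImplicit false

namespace Pool.Agent.TH0.HF

open Finset

variable {r : ℕ}

/-- isomorphism -/
def Iso (p q : Str r) : Prop :=
  ∃ e : Fin (r+1) ≃ Fin (r+1), ∀ a b, e (p.1 a b) = q.1 (e a) (e b) ∧ e '' p.2 a b = q.2 (e a) (e b)

/-- isomorphism of multiplication tables -/
def MIso (m m' : Fin (r+1) → Fin (r+1) → Fin (r+1)) : Prop :=
  ∃ e : Fin (r+1) ≃ Fin (r+1), e 0 = 0 ∧ ∀ a b, e (m a b) = m' (e a) (e b)

theorem Iso.refl (p : Str r) : Iso p p := ⟨Equiv.refl _, fun a b => ⟨rfl, by simp⟩⟩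

theorem Iso.symm {p q : Str r} (h : Iso p q) : Iso q p := by
  obtain ⟨e, he⟩ := h
  refine ⟨e.symm, fun a b => ⟨?_, ?_⟩⟩
  · rw [Equiv.symm_apply_eq, (he _ _).1]; simp
  · have := (he (e.symm a) (e.symm b)).2
    simp only [Equiv.apply_symm_apply] at this
    rw [← this, ← Set.image_comp]
    simp

theorem Iso.trans {p q s : Str r} (h : Iso p q) (h' : Iso q s) : Iso p s := by
  obtain ⟨e, he⟩ := h
  obtain ⟨e', he'⟩ := h'
  refine ⟨e.trans e', fun a b => ⟨?_, ?_⟩⟩
  · simp only [Equiv.trans_apply]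
    rw [(he _ _).1, (he' _ _).1]
  · simp only [Equiv.trans_apply]
    rw [← (he' _ _).2, ← (he _ _).2, ← Set.image_comp]
    rfl

/-- isomorphisms of hyperfield multiplications fix zero -/
theorem map_zero_of {m m' : Fin (r+1) → Fin (r+1) → Fin (r+1)} (hm : IsM m) (hm' : IsM m')
    (e : Fin (r+1) ≃ Fin (r+1)) (he : ∀ a b, e (m a b) = m' (e a) (e b)) : e 0 = 0 := by
  have h1 := he 0 (e.symm 0)
  rw [hm.2.2.2.1, Equiv.apply_symm_apply, hm'.2.1, hm'.2.2.2.1] at h1
  exact h1

/-- isomorphism classes -/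
def cls (X : Str r → Prop) : Set (Set (Str r)) := {C | ∃ p, X p ∧ C = {q | X q ∧ Iso p q}}

open Classical in
/-- automorphisms of a table -/
noncomputable def auts (m : Fin (r+1) → Fin (r+1) → Fin (r+1)) : Finset (Fin (r+1) ≃ Fin (r+1)) :=
  Finset.univ.filter (fun e => ∀ a b, e (m a b) = m (e a) (e b))

theorem exists_gen (A : Type) [Group A] [Finite A] (k : ℕ) :
    ∃ S : Finset A, S.card ≤ k ∧ (Subgroup.closure (S : Set A) = ⊤ ∨ 2 ^ k ≤ Nat.card (Subgroup.closure (S : Set A))) := by
  classical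
  induction k with
  | zero => exact ⟨∅, by simp, Or.inr (by simpa using Nat.card_pos)⟩
  | succ k ih =>
    obtain ⟨S, hS, h⟩ := ih
    by_cases ht : Subgroup.closure (S : Set A) = ⊤
    · exact ⟨S, by omega, Or.inl ht⟩
    have h2 := h.resolve_left ht
    obtain ⟨x, hx⟩ : ∃ x, x ∉ Subgroup.closure (S : Set A) := by
      by_contra hcon
      push Not at hcon
      exact ht (Subgroup.eq_top_iff' _ |>.2 hcon)
    refine ⟨insert x S, (Finset.card_insert_le _ _).trans (by omega), Or.inr ?_⟩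
    set H := Subgroup.closure (S : Set A) with hH
    set H' := Subgroup.closure ((insert x S : Finset A) : Set A) with hH'
    have hle : H ≤ H' := Subgroup.closure_mono (by simp)
    have hxH' : x ∈ H' := Subgroup.subset_closure (by simp)
    have hdvd := Subgroup.card_dvd_of_le hle
    have hne : Nat.card H ≠ Nat.card H' := by
      intro hc
      have := Subgroup.eq_of_le_of_card_ge hle hc.ge
      rw [this] at hx
      exact hx hxH'
    obtain ⟨c, hc⟩ := hdvd
    have hpos : 0 < Nat.card H' := Nat.card_pos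
    have hc2 : 2 ≤ c := by
      rcases c with _ | _ | c
      · omega
      · exfalso; apply hne; rw [hc]; ring
      · omega
    rw [hc, pow_succ]
    exact Nat.mul_le_mul h2 hc2

theorem auts_card {m : Fin (r+1) → Fin (r+1) → Fin (r+1)} (hm : IsM m) :
    (auts m).card ≤ r ^ (Nat.log 2 r + 1) := by
  classical
  letI := grp m hm
  have hmul : ∀ a b : NZ r, (a * b).1 = m a.1 b.1 := fun a b => rfl
  have hcard : Fintype.card (NZ r) = r := by
    rw [Fintype.card_subtype_compl]; simp
  have hr : 0 < r := by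
    rw [← hcard]; exact Fintype.card_pos_iff.2 ⟨1⟩
  obtain ⟨S, hS, hgen⟩ := exists_gen (NZ r) (Nat.log 2 r + 1)
  have hgen' : Subgroup.closure (S : Set (NZ r)) = ⊤ := by
    rcases hgen with h | h
    · exact h
    · exfalso
      have h1 : Nat.card (Subgroup.closure (S : Set (NZ r))) ≤ Nat.card (NZ r) := Subgroup.card_le_card_group _
      rw [Nat.card_eq_fintype_card (α := NZ r), hcard] at h1
      have h2 : r < 2 ^ (Nat.log 2 r + 1) := Nat.lt_pow_succ_log_self (by norm_num) r
      omega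
  have h0 : ∀ e ∈ auts m, e 0 = 0 := by
    intro e he
    exact map_zero_of hm hm e (mem_filter.1 he).2
  have hne : ∀ e ∈ auts m, ∀ a : NZ r, e a.1 ≠ 0 := by
    intro e he a h
    exact a.2 (e.injective (h.trans (h0 e he).symm))
  let F : (Fin (r+1) ≃ Fin (r+1)) → (S → NZ r) := fun e s => if h : e s.1.1 ≠ 0 then ⟨e s.1.1, h⟩ else 1
  have hcardle : (auts m).card ≤ (Finset.univ : Finset (S → NZ r)).card := by
    apply Finset.card_le_card_of_injOn F
    · intro _ _; exact Finset.mem_coe.2 (mem_univ _)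
    · intro e he e' he' hF
      have he := Finset.mem_coe.1 he
      have he' := Finset.mem_coe.1 he'
      let H : NZ r →* NZ r := MonoidHom.mk' (fun a => ⟨e a.1, hne e he a⟩) (fun a b => Subtype.ext ((mem_filter.1 he).2 a.1 b.1))
      let H' : NZ r →* NZ r := MonoidHom.mk' (fun a => ⟨e' a.1, hne e' he' a⟩) (fun a b => Subtype.ext ((mem_filter.1 he').2 a.1 b.1))
      have hHH : H = H' := by
        apply MonoidHom.eq_of_eqOn_dense hgen'
        intro s hs
        have := congrFun hF ⟨s, hs⟩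
        simp only [F] at this
        rw [dif_pos (hne e he s), dif_pos (hne e' he' s)] at this
        exact this
      ext x
      by_cases hx : x = 0
      · subst hx; rw [h0 e he, h0 e' he']
      · have := congrArg (fun H : NZ r →* NZ r => (H ⟨x, hx⟩).1) hHH
        exact congrArg Fin.val this
  refine hcardle.trans ?_
  rw [Finset.card_univ, Fintype.card_fun, hcard, Fintype.card_coe]
  exact Nat.pow_le_pow_right hr hS

/-- a set of labelled hyperfields with few repetitions gives many classes -/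
theorem card_le_cls (T : Finset (Str r)) (hT : ∀ p ∈ T, IsH p)
    (h2 : ∀ p ∈ T, ∀ q ∈ T, Iso p q → p.1 = q.1) :
    T.card ≤ r ^ (Nat.log 2 r + 1) * (cls (r := r) IsH).ncard := by
  classical
  let φ : Str r → Set (Str r) := fun p => {q | IsH q ∧ Iso p q}
  have h1 := Finset.card_le_mul_card_image (s := T) (f := φ) (r ^ (Nat.log 2 r + 1)) (by
    intro C hC
    obtain ⟨p0, hp0, rfl⟩ := mem_image.1 hC
    refine le_trans ?_ (auts_card (hT p0 hp0).isM)
    have hch : ∀ p : Str r, p ∈ T.filter (fun p => φ p = φ p0) → ∃ e : Fin (r+1) ≃ Fin (r+1),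
        ∀ a b, e (p0.1 a b) = p.1 (e a) (e b) ∧ e '' p0.2 a b = p.2 (e a) (e b) := by
      intro p hp
      rw [mem_filter] at hp
      have : p ∈ φ p0 := by rw [← hp.2]; exact ⟨hT p hp.1, Iso.refl p⟩
      exact this.2
    choose! e he using hch
    apply Finset.card_le_card_of_injOn e
    · intro p hp
      have hp' := Finset.mem_coe.1 hp
      have h3 := he p hp'
      rw [Finset.mem_coe, auts, mem_filter]
      refine ⟨mem_univ _, fun a b => ?_⟩
      have h4 : p0.1 = p.1 := h2 p0 hp0 p (mem_filter.1 hp').1 ⟨e p, h3⟩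
      have := (h3 a b).1
      rw [← h4] at this
      exact this
    · intro p hp q hq hpq
      have hp' := Finset.mem_coe.1 hp
      have hq' := Finset.mem_coe.1 hq
      have h3 := he p hp'
      have h4 := he q hq'
      refine Prod.ext ?_ ?_
      · rw [← h2 p0 hp0 p (mem_filter.1 hp').1 ⟨e p, h3⟩, ← h2 p0 hp0 q (mem_filter.1 hq').1 ⟨e q, h4⟩]
      · funext a b
        have e1 := (h3 ((e p).symm a) ((e p).symm b)).2
        have e2 := (h4 ((e p).symm a) ((e p).symm b)).2
        rw [← hpq] at e2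
        simp only [Equiv.apply_symm_apply] at e1 e2
        exact e1.symm.trans e2)
  refine h1.trans (Nat.mul_le_mul_left _ ?_)
  rw [← Set.ncard_coe_finset]
  apply Set.ncard_le_ncard _ (Set.toFinite _)
  intro C hC
  obtain ⟨p, hp, rfl⟩ := mem_image.1 (Finset.mem_coe.1 hC)
  exact ⟨p, hT p hp, rfl⟩

/-- transport of quotient data -/
theorem QD.iso {p q : Str r} {K : Type} [Field K] {G : Subgroup Kˣ} {f : K → Fin (r+1)} (h : QD p K G f)
    (e : Fin (r+1) ≃ Fin (r+1)) (he0 : e 0 = 0)
    (he : ∀ a b, e (p.1 a b) = q.1 (e a) (e b) ∧ e '' p.2 a b = q.2 (e a) (e b)) : QD q K G (e ∘ f) := by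
  obtain ⟨h1, h2, h3, h4, h5⟩ := h
  refine ⟨e.surjective.comp h1, by simp [h2, he0], ?_, ?_, ?_⟩
  · intro x y
    rw [← h3]
    simp
  · intro x y
    simp only [Function.comp_apply]
    rw [h4, (he _ _).1]
  · intro x y
    simp only [Function.comp_apply]
    rw [← (he _ _).2, h5]
    ext z
    simp only [Set.mem_image, Set.mem_ofPred_eq]
    constructor
    · rintro ⟨w, ⟨g, hg, k, hk, rfl⟩, rfl⟩; exact ⟨g, hg, k, hk, rfl⟩
    · rintro ⟨g, hg, k, hk, rfl⟩; exact ⟨_, ⟨g, hg, k, hk, rfl⟩, rfl⟩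

end Pool.Agent.TH0.HF
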