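import Pool.Agent.TH0.HF.Rep

set_option autoImplicit false

namespace Pool.Agent.TH0.HF

open Finset

noncomputable instance (r : ℕ) : Fintype (Str r) := by
  classical exact Fintype.ofFinite _

/-- multiplication table and zero sums -/
def key {r : ℕ} (p : Str r) : (Fin (r+1) → Fin (r+1) → Fin (r+1)) × Set (Fin (r+1) × Fin (r+1)) :=
  (p.1, {x | (0 : Fin (r+1)) ∈ p.2 x.1 x.2})

theorem key_fst {r : ℕ} {p q : Str r} (h : key p = key q) : p.1 = q.1 := (Prod.mk.inj h).1

theorem key_snd {r : ℕ} {p q : Str r} (h : key p = key q) :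
    {x : Fin (r+1) × Fin (r+1) | (0 : Fin (r+1)) ∈ p.2 x.1 x.2} = {x | (0 : Fin (r+1)) ∈ q.2 x.1 x.2} :=
  (Prod.mk.inj h).2

/-- condition making the union bound work -/
def Big (r : ℕ) : Prop := ∀ k : ℕ, r ≤ 24 * k → 2 * r ^ 4 * 3 ^ k ≤ 4 ^ k

open Classical in
/-- in one fibre of the key, the PP structures are rare -/
theorem fiber_count {r : ℕ} (hr : Big r) (κ : (Fin (r+1) → Fin (r+1) → Fin (r+1)) × Set (Fin (r+1) × Fin (r+1)))
    (p0 : Str r) (h0 : IsH p0) (hκ : key p0 = κ) :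
    ((Finset.univ : Finset (Str r)).filter (fun p => (IsH p ∧ PP p) ∧ key p = κ)).card * 2 ^ (r / 6) ≤
      2 * ((Finset.univ : Finset (Str r)).filter (fun p => IsH p ∧ key p = κ)).card ∧
    2 ^ (r / 6) ≤ 2 * ((Finset.univ : Finset (Str r)).filter (fun p => IsH p ∧ key p = κ)).card := by
  letI := grp p0.1 h0.isM
  have hmul : ∀ a b : NZ r, (a * b).1 = p0.1 a.1 b.1 := fun a b => rfl
  have hcard : Fintype.card (NZ r) = r := by
    rw [Fintype.card_subtype_compl]; simp
  obtain ⟨ε, hεε, hε0, -⟩ := exists_addS p0 h0 hmul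
  have hgood := good_count (A := NZ r) ε (by rw [hcard]; exact hr)
  have hline := line_card_ge (A := NZ r) ε
  rw [hcard] at hline
  have hsup := sup_count (A := NZ r) (line ε)
  -- upper bound
  have hup : ((Finset.univ : Finset (Str r)).filter (fun p => (IsH p ∧ PP p) ∧ key p = κ)).card ≤
      ((Finset.univ : Finset (Finset (Orb (NZ r)))).filter (fun S => line ε ⊆ S)).card := by
    apply Finset.card_le_card_of_surjOn (fun S => ((p0.1, addS ε S) : Str r))
    intro p hp
    rw [Finset.mem_coe, mem_filter] at hp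
    obtain ⟨-, ⟨hpH, hpP⟩, hpk⟩ := hp
    have hk : key p = key p0 := hpk.trans hκ.symm
    have hk1 : p.1 = p0.1 := key_fst hk
    have hk2 : {x : Fin (r+1) × Fin (r+1) | (0 : Fin (r+1)) ∈ p.2 x.1 x.2} = {x | (0 : Fin (r+1)) ∈ p0.2 x.1 x.2} :=
      key_snd hk
    obtain ⟨ε', hε'ε', hε'0, S, hS, hSP⟩ := exists_addS p hpH (fun a b => by rw [hk1]; rfl)
    have hee : ε' = ε := by
      have h1 : (0 : Fin (r+1)) ∈ p.2 (1 : NZ r).1 ε'.1 := (hε'0 _).2 rfl
      have h2 : (0 : Fin (r+1)) ∈ p0.2 (1 : NZ r).1 ε'.1 := by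
        have : ((1 : NZ r).1, ε'.1) ∈ {x : Fin (r+1) × Fin (r+1) | (0 : Fin (r+1)) ∈ p0.2 x.1 x.2} := by
          rw [← hk2]; exact h1
        exact this
      exact Subtype.ext ((hε0 _).1 h2)
    subst hee
    refine ⟨S, ?_, ?_⟩
    · rw [Finset.mem_coe, mem_filter]
      exact ⟨mem_univ _, hSP hpP⟩
    · show (p0.1, addS ε' S) = p
      rw [← hk1, ← hS]
  -- lower bound
  have hlow : ((Finset.univ : Finset (Finset (Orb (NZ r)))).filter (Good ε)).card ≤
      ((Finset.univ : Finset (Str r)).filter (fun p => IsH p ∧ key p = κ)).card := by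
    apply Finset.card_le_card_of_injOn (fun S => ((p0.1, addS ε S) : Str r))
    · intro S hS
      rw [Finset.mem_coe, mem_filter] at hS
      rw [Finset.mem_coe, mem_filter]
      have hH := isH_addS ε S p0.1 h0.isM hmul hεε hS.2
      refine ⟨mem_univ _, hH, ?_⟩
      rw [← hκ]
      unfold key
      congr 1
      ext ⟨x, y⟩
      show (0 : Fin (r+1)) ∈ addS ε S x y ↔ (0 : Fin (r+1)) ∈ p0.2 x y
      obtain ⟨ε', -, hε'0, S', hS', -⟩ := exists_addS p0 h0 hmul
      have hee : ε' = ε := by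
        have h1 : (0 : Fin (r+1)) ∈ p0.2 (1 : NZ r).1 ε'.1 := (hε'0 _).2 rfl
        exact Subtype.ext ((hε0 _).1 h1)
      subst hee
      rw [hS']
      by_cases hx : x = 0
      · subst hx; rw [addS_zero_left, addS_zero_left]
      by_cases hy : y = 0
      · subst hy; rw [addS_comm _ _ _ _ hεε, addS_comm ε' S' _ _ hεε, addS_zero_left, addS_zero_left]
      lift x to NZ r using hx
      lift y to NZ r using hy
      rw [zero_mem_addS, zero_mem_addS]
    · intro S _ S' _ h
      exact addS_injective ε p0.1 hεε h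
  have hpow : 2 ^ (r / 6) ≤ 2 ^ (line ε).card := Nat.pow_le_pow_right (by norm_num) (by omega)
  constructor
  · calc _ ≤ ((Finset.univ : Finset (Finset (Orb (NZ r)))).filter (fun S => line ε ⊆ S)).card * 2 ^ (line ε).card :=
        Nat.mul_le_mul hup hpow
      _ = 2 ^ Fintype.card (Orb (NZ r)) := hsup
      _ ≤ 2 * ((Finset.univ : Finset (Finset (Orb (NZ r)))).filter (Good ε)).card := hgood
      _ ≤ _ := Nat.mul_le_mul_left _ hlow
  · calc _ ≤ 2 ^ (line ε).card := hpow
      _ ≤ 2 ^ Fintype.card (Orb (NZ r)) := Nat.pow_le_pow_right (by norm_num) (Finset.card_le_univ _)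
      _ ≤ 2 * ((Finset.univ : Finset (Finset (Orb (NZ r)))).filter (Good ε)).card := hgood
      _ ≤ _ := Nat.mul_le_mul_left _ hlow

open Classical in
/-- summed over the fibres with multiplication in a given set -/
theorem total_count {r : ℕ} (hr : Big r) (M : Set (Fin (r+1) → Fin (r+1) → Fin (r+1))) :
    ((Finset.univ : Finset (Str r)).filter (fun p => (IsH p ∧ PP p) ∧ p.1 ∈ M)).card * 2 ^ (r / 6) ≤
      2 * ((Finset.univ : Finset (Str r)).filter (fun p => IsH p ∧ p.1 ∈ M)).card := by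
  set T := (Finset.univ : Finset (Str r)).filter (fun p => (IsH p ∧ PP p) ∧ p.1 ∈ M) with hT
  set U := (Finset.univ : Finset (Str r)).filter (fun p => IsH p ∧ p.1 ∈ M) with hU
  have hsub : T ⊆ U := by
    intro p hp
    rw [hT, mem_filter] at hp
    rw [hU, mem_filter]
    exact ⟨mem_univ _, hp.2.1.1, hp.2.2⟩
  have h1 : T.card = ∑ κ ∈ U.image key, (T.filter (fun p => key p = κ)).card :=
    Finset.card_eq_sum_card_fiberwise (fun p hp => Finset.mem_coe.2 (mem_image_of_mem key (hsub hp)))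
  have h2 : U.card = ∑ κ ∈ U.image key, (U.filter (fun p => key p = κ)).card :=
    Finset.card_eq_sum_card_fiberwise (fun p hp => Finset.mem_coe.2 (mem_image_of_mem key hp))
  rw [h1, h2, Finset.sum_mul, Finset.mul_sum]
  apply Finset.sum_le_sum
  intro κ hκ
  obtain ⟨p0, hp0, hk⟩ := mem_image.1 hκ
  rw [hU, mem_filter] at hp0
  have h3 := (fiber_count hr κ p0 hp0.2.1 hk).1
  have e1 : T.filter (fun p => key p = κ) = (Finset.univ : Finset (Str r)).filter (fun p => (IsH p ∧ PP p) ∧ key p = κ) := by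
    ext p
    rw [hT, mem_filter, mem_filter, mem_filter]
    constructor
    · rintro ⟨⟨-, h, -⟩, h'⟩; exact ⟨mem_univ _, h, h'⟩
    · rintro ⟨-, h, h'⟩
      refine ⟨⟨mem_univ _, h, ?_⟩, h'⟩
      have : p.1 = p0.1 := key_fst (h'.trans hk.symm)
      rw [this]; exact hp0.2.2
  have e2 : U.filter (fun p => key p = κ) = (Finset.univ : Finset (Str r)).filter (fun p => IsH p ∧ key p = κ) := by
    ext p
    rw [hU, mem_filter, mem_filter, mem_filter]
    constructor
    · rintro ⟨⟨-, h, -⟩, h'⟩; exact ⟨mem_univ _, h, h'⟩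
    · rintro ⟨-, h, h'⟩
      refine ⟨⟨mem_univ _, h, ?_⟩, h'⟩
      have : p.1 = p0.1 := key_fst (h'.trans hk.symm)
      rw [this]; exact hp0.2.2
  rw [e1, e2]
  exact h3

end Pool.Agent.TH0.HF
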