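import Mathlib

set_option autoImplicit false

namespace Pool.Agent.TH0.HF

open Filter

/-- long sequences whose differences all have the same colour -/
theorem exists_seq {K : Type} [Field K] [Infinite K] {r : ℕ} (f : K → Fin (r + 1)) :
    ∃ a : Fin (r + 1), ∀ n : ℕ, ∃ s : ℕ → K, ∀ i j, i < j → j < n →
      s j ≠ s i ∧ f (s j - s i) = a := by
  classical
  let U : Ultrafilter K := hyperfilter K
  have hcol : ∀ g : K → Fin (r + 1), ∃ c, ∀ᶠ y in (U : Filter K), g y = c := by
    intro g
    obtain ⟨c, hc⟩ := (U.map g).eq_pure_of_finite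
    refine ⟨c, ?_⟩
    have : {c} ∈ U.map g := by rw [hc]; exact Set.mem_singleton c
    exact this
  choose c hc using fun x : K => hcol (fun y => f (y - x))
  obtain ⟨a, ha⟩ := hcol c
  refine ⟨a, fun n => ?_⟩
  have key : ∀ n : ℕ, ∃ s : ℕ → K, (∀ i < n, c (s i) = a) ∧ ∀ i j, i < j → j < n →
      s j ≠ s i ∧ f (s j - s i) = a := by
    intro n
    induction n with
    | zero => exact ⟨fun _ => 0, by omega, by omega⟩
    | succ n ih =>
      obtain ⟨s, h1, h2⟩ := ih
      have hev : ∀ᶠ y in (U : Filter K), c y = a ∧ ∀ i ∈ Finset.range n, y ≠ s i ∧ f (y - s i) = a := by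
        refine ha.and ?_
        rw [Filter.eventually_all_finset]
        intro i hi
        have hi' := h1 i (Finset.mem_range.1 hi)
        have h3 := hc (s i)
        rw [hi'] at h3
        refine Filter.Eventually.and ?_ h3
        have : {s i}ᶜ ∈ (U : Filter K) := compl_mem_hyperfilter_of_finite (Set.finite_singleton _)
        filter_upwards [this] with y hy
        exact hy
      obtain ⟨y, hy1, hy2⟩ := hev.exists
      refine ⟨fun i => if i = n then y else s i, ?_, ?_⟩
      · intro i hi
        by_cases h : i = n
        · simp [h, hy1]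
        · simp only [h, if_false]; exact h1 i (by omega)
      · intro i j hij hj
        have hi : i ≠ n := by omega
        by_cases h : j = n
        · subst h
          simp only [if_true, hi, if_false]
          exact hy2 i (Finset.mem_range.2 hij)
        · simp only [h, hi, if_false]; exact h2 i j hij (by omega)
  obtain ⟨s, -, hs⟩ := key n
  exact ⟨s, hs⟩

end Pool.Agent.TH0.HF
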