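import Pool.Agent.TH0.HF.Inf

set_option autoImplicit false

namespace Pool.Agent.TH0.HF

open Filter

theorem exists_N (k r : ℕ) (hr : 0 < r) : ∃ N : ℕ, r * (N + 1) ^ k < (r + 1) * N ^ k := by
  have h : Tendsto (fun N : ℕ => ((1 : ℝ) + 1 / (N : ℝ)) ^ k) atTop (nhds ((1 + 0) ^ k)) :=
    (tendsto_const_nhds.add tendsto_one_div_atTop_nhds_zero_nat).pow k
  rw [add_zero, one_pow] at h
  have hlt : (1 : ℝ) < ((r : ℝ) + 1) / r := by
    have : (0 : ℝ) < r := by exact_mod_cast hr
    rw [lt_div_iff₀ this]; linarith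
  obtain ⟨N, hN, hN1⟩ := ((h.eventually (gt_mem_nhds hlt)).and (eventually_ge_atTop 1)).exists
  refine ⟨N, ?_⟩
  have hr' : (0 : ℝ) < r := by exact_mod_cast hr
  have hN' : (0 : ℝ) < N := by exact_mod_cast hN1
  have e : ((1 : ℝ) + 1 / (N : ℝ)) ^ k = ((N : ℝ) + 1) ^ k / (N : ℝ) ^ k := by
    rw [← div_pow]; congr 1; field_simp
  rw [e, div_lt_div_iff₀ (by positivity) hr'] at hN
  have : ((r * (N + 1) ^ k : ℕ) : ℝ) < (((r + 1) * N ^ k : ℕ) : ℝ) := by
    push_cast; linarith
  exact_mod_cast this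

section
variable {K : Type} [Field K] {r : ℕ} (G : Subgroup Kˣ) (f : K → Fin (r + 1))

theorem f_ne_zero (hf0 : f 0 = 0) (hf : ∀ x y : K, f x = f y ↔ ∃ g ∈ G, y = x * (g : K))
    {x : K} (hx : x ≠ 0) : f x ≠ 0 := by
  intro h
  rw [← hf0] at h
  obtain ⟨g, -, hg⟩ := (hf x 0).1 h
  rcases mul_eq_zero.1 hg.symm with h | h
  · exact hx h
  · exact g.ne_zero h

/-- in an infinite field every element is a difference of elements of a finite index subgroup -/
theorem inf_diff [Infinite K] (hsurj : Function.Surjective f) (hf0 : f 0 = 0)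
    (hf : ∀ x y : K, f x = f y ↔ ∃ g ∈ G, y = x * (g : K)) (hr : 0 < r) (c : K) (hc : c ≠ 0) :
    ∃ g ∈ G, ∃ h ∈ G, (g : K) - h = c := by
  classical
  obtain ⟨a₀, hseq⟩ := exists_seq f
  obtain ⟨s, hs⟩ := hseq (r + 2)
  -- rescale
  obtain ⟨u, hu0, t, ht⟩ : ∃ u : K, u ≠ 0 ∧ ∃ t : ℕ → K, ∀ i j, i < j → j < r + 1 →
      ∃ g ∈ G, t j - t i = (g : K) := by
    have h01 := hs 0 1 (by omega) (by omega)
    have hu : s 1 - s 0 ≠ 0 := sub_ne_zero.2 h01.1
    refine ⟨s 1 - s 0, hu, fun i => s i / (s 1 - s 0), fun i j hij hj => ?_⟩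
    have hij' := hs i j hij (by omega)
    obtain ⟨g, hg, hg'⟩ := (hf (s 1 - s 0) (s j - s i)).1 (by rw [h01.2, hij'.2])
    refine ⟨g, hg, ?_⟩
    rw [← sub_div, hg', mul_comm, mul_div_assoc, div_self hu, mul_one]
  choose rep hrep using hsurj
  -- the vectors
  let ι := Fin (r + 1) × Fin (r + 1)
  let v : ι → K := fun p => c * rep p.1 * t p.2
  obtain ⟨N, hN⟩ := exists_N (Fintype.card ι) r hr
  let box : ℕ → Finset (ι → ℕ) := fun M => Fintype.piFinset (fun _ => Finset.range M)
  have hbox : ∀ M, (box M).card = M ^ Fintype.card ι := by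
    intro M
    simp [box, Fintype.card_piFinset, ι]
  obtain ⟨x, hx⟩ := Infinite.exists_notMem_finset ((box N).image (fun n => - ∑ k, (n k : K) * v k))
  let p : (ι → ℕ) → K := fun n => x + ∑ k, (n k : K) * v k
  have hp0 : ∀ n ∈ box N, p n ≠ 0 := by
    intro n hn h
    apply hx
    rw [Finset.mem_image]
    exact ⟨n, hn, by simp only [p] at h; linear_combination -h⟩
  -- pigeonhole for the colour
  obtain ⟨a, ha, hcard⟩ : ∃ a : Fin (r + 1), a ≠ 0 ∧ N ^ Fintype.card ι ≤ r * ((box N).filter (fun n => f (p n) = a)).card := by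
    by_contra hcon
    push Not at hcon
    have h1 : (box N).card = ∑ a ∈ (Finset.univ.erase (0 : Fin (r + 1))), ((box N).filter (fun n => f (p n) = a)).card := by
      apply Finset.card_eq_sum_card_fiberwise
      intro n hn
      have hn' : n ∈ box N := by simpa using hn
      simp only [Finset.coe_erase, Finset.coe_univ, Set.mem_sdiff, Set.mem_univ, true_and, Set.mem_singleton_iff]
      exact f_ne_zero G f hf0 hf (hp0 n hn')
    have h2 : r * (box N).card < r * N ^ Fintype.card ι := by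
      rw [h1, Finset.mul_sum]
      have h3 : (Finset.univ.erase (0 : Fin (r + 1))).card = r := by simp
      have h4 : (Finset.univ.erase (0 : Fin (r + 1))).Nonempty := by
        rw [← Finset.card_pos, h3]; exact hr
      calc ∑ a ∈ (Finset.univ.erase (0 : Fin (r + 1))), r * ((box N).filter (fun n => f (p n) = a)).card
          < ∑ a ∈ (Finset.univ.erase (0 : Fin (r + 1))), N ^ Fintype.card ι := by
            apply Finset.sum_lt_sum_of_nonempty h4
            intro a ha
            exact hcon a (Finset.ne_of_mem_erase ha)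
        _ = r * N ^ Fintype.card ι := by rw [Finset.sum_const, h3, smul_eq_mul]
    rw [hbox] at h2
    exact lt_irrefl _ h2
  -- two shifts meet
  let D := (box N).filter (fun n => f (p n) = a)
  let sh : Fin (r + 1) → (ι → ℕ) → (ι → ℕ) := fun i n => n + Pi.single (a, i) 1
  have hmeet : ∃ i j : Fin (r + 1), i < j ∧ ∃ n ∈ D, ∃ n' ∈ D, sh i n = sh j n' := by
    by_contra hcon
    push Not at hcon
    have hdisj : ∀ i ∈ (Finset.univ : Finset (Fin (r + 1))), ∀ j ∈ (Finset.univ : Finset (Fin (r + 1))), i ≠ j →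
        Disjoint (D.image (sh i)) (D.image (sh j)) := by
      intro i _ j _ hij
      rw [Finset.disjoint_left]
      intro m hm hm'
      obtain ⟨n, hn, rfl⟩ := Finset.mem_image.1 hm
      obtain ⟨n', hn', h⟩ := Finset.mem_image.1 hm'
      rcases lt_or_gt_of_ne hij with h' | h'
      · exact hcon i j h' n hn n' hn' h.symm
      · exact hcon j i h' n' hn' n hn h
    have hsub : (Finset.univ : Finset (Fin (r + 1))).biUnion (fun i => D.image (sh i)) ⊆ box (N + 1) := by
      intro m hm
      obtain ⟨i, -, hm⟩ := Finset.mem_biUnion.1 hm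
      obtain ⟨n, hn, rfl⟩ := Finset.mem_image.1 hm
      have hn' := (Finset.mem_filter.1 hn).1
      simp only [box, Fintype.mem_piFinset, Finset.mem_range] at hn' ⊢
      intro k
      have := hn' k
      simp only [sh, Pi.add_apply]
      by_cases hk : k = (a, i)
      · subst hk; simp; omega
      · simp [Pi.single_apply, hk]; omega
    have h1 := Finset.card_le_card hsub
    rw [Finset.card_biUnion hdisj, hbox] at h1
    have h2 : ∀ i : Fin (r + 1), (D.image (sh i)).card = D.card := by
      intro i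
      apply Finset.card_image_of_injective
      intro n n' h
      exact add_right_cancel h
    simp only [h2, Finset.sum_const, Finset.card_univ, Fintype.card_fin, smul_eq_mul] at h1
    have h3 : (r + 1) * N ^ Fintype.card ι ≤ r * (N + 1) ^ Fintype.card ι := by
      calc (r + 1) * N ^ Fintype.card ι ≤ (r + 1) * (r * D.card) := Nat.mul_le_mul_left _ hcard
        _ = r * ((r + 1) * D.card) := by ring
        _ ≤ r * (N + 1) ^ Fintype.card ι := Nat.mul_le_mul_left _ h1
    omega
  obtain ⟨i, j, hij, n, hn, n', hn', hsh⟩ := hmeet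
  have hpn : ∀ (k : Fin (r + 1)) (m : ι → ℕ), p (sh k m) = p m + v (a, k) := by
    intro k m
    simp only [p, sh, Pi.add_apply, Nat.cast_add, add_mul, Finset.sum_add_distrib]
    have : ∑ x, ((Pi.single (a, k) 1 : ι → ℕ) x : K) * v x = v (a, k) := by
      rw [Finset.sum_eq_single (a, k)]
      · simp
      · intro b _ hb
        simp [Pi.single_apply, hb]
      · intro h; exact absurd (Finset.mem_univ _) h
    rw [this]; ring
  have e1 : p n + v (a, i) = p n' + v (a, j) := by rw [← hpn, ← hpn, hsh]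
  have hfa : f (rep a) = a := hrep a
  obtain ⟨g, hg, hg'⟩ := (hf (rep a) (p n)).1 (by rw [hfa, (Finset.mem_filter.1 hn).2])
  obtain ⟨h, hh, hh'⟩ := (hf (rep a) (p n')).1 (by rw [hfa, (Finset.mem_filter.1 hn').2])
  obtain ⟨w, hw, hw'⟩ := ht i j hij (by omega)
  have hrep0 : rep a ≠ 0 := by
    intro h0
    rw [h0, hf0] at hfa
    exact ha hfa.symm
  refine ⟨g * w⁻¹, G.mul_mem hg (G.inv_mem hw), h * w⁻¹, G.mul_mem hh (G.inv_mem hw), ?_⟩
  have hw0 : (w : K) ≠ 0 := w.ne_zero
  have e2 : (g : K) - h = c * w := by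
    apply mul_left_cancel₀ hrep0
    simp only [v] at e1
    rw [← hw', mul_sub, ← hg', ← hh']
    linear_combination e1
  push_cast
  field_simp
  rw [e2]; ring

end

end Pool.Agent.TH0.HF
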