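import Mathlib

set_option autoImplicit false

namespace Pool.Agent.TH0.HF

open Finset

/-- sets avoiding disjoint pairs are rare -/
theorem avoid_count {O X : Type} [Fintype O] [DecidableEq O] [DecidableEq X] (u v : X → O)
    (I : Finset X) (hI : ∀ x ∈ I, ∀ y ∈ I, x ≠ y → Disjoint ({u x, v x} : Finset O) {u y, v y}) :
    ((Finset.univ : Finset (Finset O)).filter (fun S => ∀ x ∈ I, ¬ (u x ∈ S ∧ v x ∈ S))).card * 4 ^ I.card
      ≤ 3 ^ I.card * 2 ^ Fintype.card O := by
  induction I using Finset.induction_on with
  | empty => simp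
  | insert x₀ I hx₀ ih =>
    have ih' := ih (fun x hx y hy hxy => hI x (mem_insert_of_mem hx) y (mem_insert_of_mem hy) hxy)
    set T := (Finset.univ : Finset (Finset O)).filter (fun S => ∀ x ∈ I, ¬ (u x ∈ S ∧ v x ∈ S)) with hT
    have hsplit : ((Finset.univ : Finset (Finset O)).filter (fun S => ∀ x ∈ insert x₀ I, ¬ (u x ∈ S ∧ v x ∈ S)))
        = T.filter (fun S => ¬ (u x₀ ∈ S ∧ v x₀ ∈ S)) := by
      ext S
      simp only [hT, mem_filter, mem_univ, true_and, forall_mem_insert]
      tauto
    rw [hsplit, Finset.card_insert_of_notMem hx₀]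
    have h1 := Finset.card_filter_add_card_filter_not (s := T) (fun S => u x₀ ∈ S ∧ v x₀ ∈ S)
    -- the map adding both points
    have h2 : T.card ≤ 4 * (T.filter (fun S => u x₀ ∈ S ∧ v x₀ ∈ S)).card := by
      have h3 := Finset.card_le_mul_card_image_of_maps_to (s := T)
        (t := T.filter (fun S => u x₀ ∈ S ∧ v x₀ ∈ S)) (f := fun S => S ∪ {u x₀, v x₀}) (by
          intro S hS
          rw [mem_filter]
          refine ⟨?_, by simp, by simp⟩
          rw [hT, mem_filter] at hS ⊢
          refine ⟨mem_univ _, fun x hx => ?_⟩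
          have hd := hI x (mem_insert_of_mem hx) x₀ (mem_insert_self _ _) (fun h => hx₀ (h ▸ hx))
          have hu : u x ∉ ({u x₀, v x₀} : Finset O) := by
            intro h; exact (Finset.disjoint_left.1 hd) (by simp) h
          have hv : v x ∉ ({u x₀, v x₀} : Finset O) := by
            intro h; exact (Finset.disjoint_left.1 hd) (by simp) h
          rw [mem_union, mem_union]
          rintro ⟨h1 | h1, h2 | h2⟩
          · exact hS.2 x hx ⟨h1, h2⟩
          · exact hv h2
          · exact hu h1
          · exact hu h1) 4 (by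
          intro R _
          -- fibre has at most 4 elements
          have h4 : (T.filter (fun S => S ∪ {u x₀, v x₀} = R)).card ≤ (Finset.univ : Finset (Bool × Bool)).card := by
            apply Finset.card_le_card_of_injOn (fun S => (decide (u x₀ ∈ S), decide (v x₀ ∈ S)))
            · intro _ _; exact Finset.mem_coe.2 (mem_univ _)
            · intro S hS S' hS' h
              simp only [Prod.mk.injEq, decide_eq_decide] at h
              have e1 := (mem_filter.1 (Finset.mem_coe.1 hS)).2
              have e2 := (mem_filter.1 (Finset.mem_coe.1 hS')).2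
              ext o
              by_cases ho : o = u x₀
              · rw [ho]; exact h.1
              by_cases ho' : o = v x₀
              · rw [ho']; exact h.2
              have := congrArg (fun R => o ∈ R) (e1.trans e2.symm)
              simpa [ho, ho'] using this
          simpa using h4)
      linarith
    set p := (T.filter (fun S => u x₀ ∈ S ∧ v x₀ ∈ S)).card
    set q := (T.filter (fun S => ¬ (u x₀ ∈ S ∧ v x₀ ∈ S))).card
    have h5 : 4 * q ≤ 3 * T.card := by omega
    calc q * 4 ^ (I.card + 1) = (4 * q) * 4 ^ I.card := by ring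
      _ ≤ (3 * T.card) * 4 ^ I.card := Nat.mul_le_mul_right _ h5
      _ = 3 * (T.card * 4 ^ I.card) := by ring
      _ ≤ 3 * (3 ^ I.card * 2 ^ Fintype.card O) := Nat.mul_le_mul_left _ ih'
      _ = 3 ^ (I.card + 1) * 2 ^ Fintype.card O := by ring

section
variable {A : Type} [CommGroup A]

/-- triples up to permutation and scaling -/
def tset (A : Type) [CommGroup A] : Setoid (Fin 3 → A) where
  r t t' := ∃ σ : Equiv.Perm (Fin 3), ∃ a : A, ∀ i, t' i = a * t (σ i)
  iseqv := by
    constructor
    · intro t; exact ⟨1, 1, fun i => by simp⟩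
    · rintro t t' ⟨σ, a, h⟩
      refine ⟨σ⁻¹, a⁻¹, fun i => ?_⟩
      have : σ (σ⁻¹ i) = i := by simp
      rw [h, this, inv_mul_cancel_left]
    · rintro t t' t'' ⟨σ, a, h⟩ ⟨τ, b, h'⟩
      refine ⟨σ * τ, b * a, fun i => ?_⟩
      rw [h', h, Equiv.Perm.mul_apply, mul_assoc]

/-- the orbit type -/
abbrev Orb (A : Type) [CommGroup A] := Quotient (tset A)

/-- the orbit of a triple -/
def mk3 (x y w : A) : Orb A := Quotient.mk (tset A) ![x, y, w]

noncomputable instance [Fintype A] : Fintype (Orb A) := by
  classical exact Fintype.ofFinite _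

noncomputable instance : DecidableEq (Orb A) := Classical.decEq _

theorem mk3_eq_iff (x y w x' y' w' : A) : mk3 x y w = mk3 x' y' w' ↔
    ∃ σ : Equiv.Perm (Fin 3), ∃ a : A, ∀ i, ![x', y', w'] i = a * ![x, y, w] (σ i) := by
  unfold mk3
  exact Quotient.eq (r := tset A)

theorem line_card [Fintype A] [DecidableEq A] (l : A → Fin 3 → A) (hl : Function.Injective l) (k : Fin 3) (c : A)
    (hk : ∀ x, l x k = c) (o : Orb A) :
    ((Finset.univ : Finset A).filter (fun x => Quotient.mk (tset A) (l x) = o)).card ≤ 6 := by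
  classical
  obtain ⟨t, rfl⟩ := Quotient.exists_rep o
  have h6 : (Finset.univ : Finset (Equiv.Perm (Fin 3))).card = 6 := by decide
  have hch : ∀ x : A, Quotient.mk (tset A) (l x) = Quotient.mk (tset A) t → ∃ σ : Equiv.Perm (Fin 3), ∃ a : A, ∀ i, l x i = a * t (σ i) := by
    intro x hx
    exact Quotient.eq (r := tset A) |>.1 hx.symm
  choose! s hs using hch
  rw [← h6]
  apply Finset.card_le_card_of_injOn s
  · intro _ _; exact Finset.mem_coe.2 (mem_univ _)
  · intro x hx y hy hxy
    obtain ⟨a, ha⟩ := hs x (mem_filter.1 (Finset.mem_coe.1 hx)).2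
    obtain ⟨b, hb⟩ := hs y (mem_filter.1 (Finset.mem_coe.1 hy)).2
    apply hl
    have hab : a = b := by
      have e1 := ha k
      have e2 := hb k
      rw [hk] at e1 e2
      rw [← hxy] at e2
      exact mul_right_cancel (e1.symm.trans e2)
    ext i
    rw [ha, hb, hab, hxy]

/-- a large family of `x` with disjoint pairs of orbits -/
theorem exists_disj [Fintype A] [DecidableEq A] (ε a b c d : A) :
    ∃ I : Finset A, Fintype.card A ≤ 24 * I.card ∧ ∀ x ∈ I, ∀ y ∈ I, x ≠ y →
      Disjoint ({mk3 a b x, mk3 (ε * x) c d} : Finset (Orb A)) {mk3 a b y, mk3 (ε * y) c d} := by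
  classical
  let supp : A → Finset (Orb A) := fun x => {mk3 a b x, mk3 (ε * x) c d}
  let P : Finset A → Prop := fun I => ∀ x ∈ I, ∀ y ∈ I, x ≠ y → Disjoint (supp x) (supp y)
  obtain ⟨I, hI, hmax⟩ := Finset.exists_max_image ((Finset.univ : Finset (Finset A)).filter P) Finset.card
    ⟨∅, by simp [P]⟩
  have hIP : P I := (mem_filter.1 hI).2
  refine ⟨I, ?_, hIP⟩
  -- every x meets some element
  have hmeet : ∀ x : A, ∃ y ∈ I, ¬ Disjoint (supp x) (supp y) := by
    intro x
    by_contra hcon
    push Not at hcon
    have hx : x ∉ I := by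
      intro hx
      have := hcon x hx
      rw [Finset.disjoint_self_iff_empty] at this
      simp [supp] at this
    have hP : P (insert x I) := by
      intro y hy z hz hyz
      rcases mem_insert.1 hy with hy' | hy' <;> rcases mem_insert.1 hz with hz' | hz'
      · exact absurd (hy'.trans hz'.symm) hyz
      · rw [hy']; exact hcon z hz'
      · rw [hz']; exact (hcon y hy').symm
      · exact hIP y hy' z hz' hyz
    have := hmax (insert x I) (mem_filter.2 ⟨mem_univ _, hP⟩)
    rw [Finset.card_insert_of_notMem hx] at this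
    omega
  have hcov : (Finset.univ : Finset A) ⊆ I.biUnion (fun y => (Finset.univ : Finset A).filter (fun x => ¬ Disjoint (supp x) (supp y))) := by
    intro x _
    obtain ⟨y, hy, hxy⟩ := hmeet x
    rw [mem_biUnion]
    exact ⟨y, hy, mem_filter.2 ⟨mem_univ _, hxy⟩⟩
  have hone : ∀ o : Orb A, ((Finset.univ : Finset A).filter (fun x => mk3 a b x = o)).card ≤ 6 := by
    intro o
    apply line_card (fun x => ![a, b, x]) _ 0 a (fun x => rfl) o
    intro x y h
    have := congrFun h 2
    simpa using this
  have htwo : ∀ o : Orb A, ((Finset.univ : Finset A).filter (fun x => mk3 (ε * x) c d = o)).card ≤ 6 := by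
    intro o
    apply line_card (fun x => ![ε * x, c, d]) _ 1 c (fun x => rfl) o
    intro x y h
    have := congrFun h 0
    simpa using this
  have hfib : ∀ y ∈ I, ((Finset.univ : Finset A).filter (fun x => ¬ Disjoint (supp x) (supp y))).card ≤ 24 := by
    intro y _
    have hsub : (Finset.univ : Finset A).filter (fun x => ¬ Disjoint (supp x) (supp y)) ⊆
        (((Finset.univ : Finset A).filter (fun x => mk3 a b x = mk3 a b y)) ∪
        ((Finset.univ : Finset A).filter (fun x => mk3 a b x = mk3 (ε * y) c d))) ∪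
        (((Finset.univ : Finset A).filter (fun x => mk3 (ε * x) c d = mk3 a b y)) ∪
        ((Finset.univ : Finset A).filter (fun x => mk3 (ε * x) c d = mk3 (ε * y) c d))) := by
      intro x hx
      have hx' := (mem_filter.1 hx).2
      rw [Finset.not_disjoint_iff] at hx'
      obtain ⟨o, ho1, ho2⟩ := hx'
      simp only [supp, mem_insert, mem_singleton] at ho1 ho2
      simp only [mem_union, mem_filter, mem_univ, true_and]
      rcases ho1 with h1 | h1 <;> rcases ho2 with h2 | h2 <;> rw [← h1, ← h2] <;> simp
    refine (Finset.card_le_card hsub).trans ((Finset.card_union_le _ _).trans ?_)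
    have e1 := Finset.card_union_le ((Finset.univ : Finset A).filter (fun x => mk3 a b x = mk3 a b y))
      ((Finset.univ : Finset A).filter (fun x => mk3 a b x = mk3 (ε * y) c d))
    have e2 := Finset.card_union_le ((Finset.univ : Finset A).filter (fun x => mk3 (ε * x) c d = mk3 a b y))
      ((Finset.univ : Finset A).filter (fun x => mk3 (ε * x) c d = mk3 (ε * y) c d))
    have := hone (mk3 a b y)
    have := hone (mk3 (ε * y) c d)
    have := htwo (mk3 a b y)
    have := htwo (mk3 (ε * y) c d)
    omega
  have := (Finset.card_le_card hcov).trans (Finset.card_biUnion_le_card_mul _ _ 24 hfib)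
  rw [Finset.card_univ] at this
  linarith

/-- goodness of a set of orbits -/
def Good (ε : A) (S : Finset (Orb A)) : Prop :=
  ∀ a b c d : A, ∃ x : A, mk3 a b x ∈ S ∧ mk3 (ε * x) c d ∈ S

open Classical in
theorem good_count [Fintype A] (ε : A)
    (hr : ∀ k : ℕ, Fintype.card A ≤ 24 * k → 2 * (Fintype.card A) ^ 4 * 3 ^ k ≤ 4 ^ k) :
    2 ^ Fintype.card (Orb A) ≤ 2 * ((Finset.univ : Finset (Finset (Orb A))).filter (Good ε)).card := by
  classical
  set N := 2 ^ Fintype.card (Orb A) with hN
  have htot : (Finset.univ : Finset (Finset (Orb A))).card = N := by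
    rw [Finset.card_univ, Fintype.card_finset]
  have h1 := Finset.card_filter_add_card_filter_not (s := (Finset.univ : Finset (Finset (Orb A)))) (Good ε)
  rw [htot] at h1
  suffices h : 2 * ((Finset.univ : Finset (Finset (Orb A))).filter (fun S => ¬ Good ε S)).card ≤ N by omega
  let Bad : A × A × A × A → Finset (Finset (Orb A)) := fun p =>
    (Finset.univ : Finset (Finset (Orb A))).filter (fun S => ∀ x : A, ¬ (mk3 p.1 p.2.1 x ∈ S ∧ mk3 (ε * x) p.2.2.1 p.2.2.2 ∈ S))
  have hsub : (Finset.univ : Finset (Finset (Orb A))).filter (fun S => ¬ Good ε S) ⊆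
      (Finset.univ : Finset (A × A × A × A)).biUnion Bad := by
    intro S hS
    have hS' := (mem_filter.1 hS).2
    unfold Good at hS'
    push Not at hS'
    obtain ⟨a, b, c, d, h⟩ := hS'
    rw [mem_biUnion]
    refine ⟨(a, b, c, d), mem_univ _, ?_⟩
    simp only [Bad, mem_filter, mem_univ, true_and]
    intro x hx
    exact h x hx.1 hx.2
  have hbad : ∀ p : A × A × A × A, 2 * (Fintype.card A) ^ 4 * (Bad p).card ≤ N := by
    rintro ⟨a, b, c, d⟩
    obtain ⟨I, hI1, hI2⟩ := exists_disj ε a b c d
    have h2 := avoid_count (fun x : A => mk3 a b x) (fun x : A => mk3 (ε * x) c d) I hI2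
    have h3 : (Bad (a, b, c, d)).card ≤ ((Finset.univ : Finset (Finset (Orb A))).filter
        (fun S => ∀ x ∈ I, ¬ (mk3 a b x ∈ S ∧ mk3 (ε * x) c d ∈ S))).card := by
      apply Finset.card_le_card
      intro S hS
      have := (mem_filter.1 hS).2
      exact mem_filter.2 ⟨mem_univ _, fun x _ => this x⟩
    have h4 := hr I.card hI1
    have h5 : 2 * (Fintype.card A) ^ 4 * (Bad (a, b, c, d)).card * (3 ^ I.card) ≤ N * 3 ^ I.card := by
      calc 2 * (Fintype.card A) ^ 4 * (Bad (a, b, c, d)).card * (3 ^ I.card)
          = (2 * (Fintype.card A) ^ 4 * 3 ^ I.card) * (Bad (a, b, c, d)).card := by ring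
        _ ≤ 4 ^ I.card * (Bad (a, b, c, d)).card := Nat.mul_le_mul_right _ h4
        _ = (Bad (a, b, c, d)).card * 4 ^ I.card := by ring
        _ ≤ _ := Nat.mul_le_mul_right _ h3
        _ ≤ 3 ^ I.card * 2 ^ Fintype.card (Orb A) := by convert h2
        _ = N * 3 ^ I.card := by rw [hN]; ring
    exact Nat.le_of_mul_le_mul_right h5 (by positivity)
  rcases Nat.eq_zero_or_pos (Fintype.card A) with h0 | hpos
  · exact absurd h0 Fintype.card_ne_zero
  have h6 : ((Finset.univ : Finset (A × A × A × A)).biUnion Bad).card ≤ ∑ p : A × A × A × A, (Bad p).card :=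
    Finset.card_biUnion_le
  have h7 : (Fintype.card A) ^ 4 * (2 * ∑ p : A × A × A × A, (Bad p).card) ≤ (Fintype.card A) ^ 4 * N := by
    calc (Fintype.card A) ^ 4 * (2 * ∑ p : A × A × A × A, (Bad p).card)
        = ∑ p : A × A × A × A, 2 * (Fintype.card A) ^ 4 * (Bad p).card := by
          rw [← Finset.mul_sum]; ring
      _ ≤ ∑ p : A × A × A × A, N := Finset.sum_le_sum (fun p _ => hbad p)
      _ = (Fintype.card A) ^ 4 * N := by
          rw [Finset.sum_const, Finset.card_univ, smul_eq_mul]
          simp only [Fintype.card_prod]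
          ring
  have h8 := Nat.le_of_mul_le_mul_left h7 (by positivity)
  have h9 := Finset.card_le_card hsub
  omega

/-- the line through `1` and `ε` -/
noncomputable def line [Fintype A] (ε : A) : Finset (Orb A) := Finset.univ.image (fun x => mk3 1 ε x)

theorem line_card_ge [Fintype A] [DecidableEq A] (ε : A) : Fintype.card A ≤ 6 * (line ε).card := by
  have h := Finset.card_le_mul_card_image (s := (Finset.univ : Finset A)) (f := fun x => mk3 1 ε x) 6 (by
    intro o _
    apply line_card (fun x => ![1, ε, x]) _ 0 1 (fun x => rfl) o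
    intro x y h
    have := congrFun h 2
    simpa using this)
  rw [Finset.card_univ] at h
  exact h

theorem sup_count [Fintype A] (L : Finset (Orb A)) :
    ((Finset.univ : Finset (Finset (Orb A))).filter (fun S => L ⊆ S)).card * 2 ^ L.card = 2 ^ Fintype.card (Orb A) := by
  classical
  have : (Finset.univ : Finset (Finset (Orb A))).filter (fun S => L ⊆ S) = Finset.Icc L Finset.univ := by
    ext S; simp
  rw [this, Finset.card_Icc_finset (Finset.subset_univ _), Finset.card_univ, ← pow_add]
  congr 1
  have := Finset.card_le_univ L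
  omega

end

end Pool.Agent.TH0.HF
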