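import Pool.Agent.TH0.HF.AddS

set_option autoImplicit false

namespace Pool.Agent.TH0.HF

open Finset

section
variable {r : ℕ} [CommGroup (NZ r)]

/-- every hyperfield comes from a set of orbits -/
theorem exists_addS (p : Str r) (hp : IsH p) (hmul : ∀ a b : NZ r, (a * b).1 = p.1 a.1 b.1) :
    ∃ ε : NZ r, ε * ε = 1 ∧ (∀ y : Fin (r+1), (0 : Fin (r+1)) ∈ p.2 (1 : NZ r).1 y ↔ y = ε.1) ∧
      ∃ S : Finset (Orb (NZ r)), p.2 = addS ε S ∧ (PP p → line ε ⊆ S) := by
  obtain ⟨-, hc, hass, h0, -, -, hne, hac, haa, ha0, hu, hrev, hd⟩ := hp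
  have h0' : ∀ a, p.1 a 0 = 0 := fun a => (hc a 0).trans (h0 a)
  have ha0' : ∀ a, p.2 a 0 = {a} := fun a => (hac a 0).trans (ha0 a)
  obtain ⟨e, he, hue⟩ := hu (1 : NZ r).1
  have he0 : e ≠ 0 := by
    rintro rfl
    rw [ha0'] at he
    exact (1 : NZ r).2 he.symm
  set ε : NZ r := ⟨e, he0⟩ with hε
  have hmem0 : ∀ x : NZ r, ∀ y : Fin (r+1), (0 : Fin (r+1)) ∈ p.2 x.1 y ↔ y = (ε * x).1 := by
    intro x y
    have h1 : (0 : Fin (r+1)) ∈ p.2 x.1 (ε * x).1 := by
      have h2 := hd x.1 (1 : NZ r).1 e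
      rw [← hmul x 1, mul_one] at h2
      have h3 : p.1 x.1 e = (ε * x).1 := by rw [mul_comm ε x]; exact (hmul x ε).symm
      rw [h3] at h2
      rw [← h2]
      exact ⟨0, he, h0' _⟩
    constructor
    · intro h
      obtain ⟨z, -, hz⟩ := hu x.1
      exact (hz y h).trans (hz _ h1).symm
    · rintro rfl; exact h1
  have hεε : ε * ε = 1 := by
    have h1 : (0 : Fin (r+1)) ∈ p.2 ε.1 (1 : NZ r).1 := by
      rw [hac]; exact he
    have := (hmem0 ε _).1 h1
    exact Subtype.ext this.symm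
  have hεm : ∀ a : NZ r, ε * (ε * a) = a := fun a => by rw [← mul_assoc, hεε, one_mul]
  refine ⟨ε, hεε, ?_, ?_⟩
  · intro y
    have := hmem0 1 y
    rw [mul_one] at this
    exact this
  classical
  let R : NZ r → NZ r → NZ r → Prop := fun x y w => (ε * w).1 ∈ p.2 x.1 y.1
  have hR1 : ∀ x y w, R x y w → R y x w := by
    intro x y w h
    show (ε * w).1 ∈ p.2 y.1 x.1
    rw [hac]; exact h
  have hR2' : ∀ x y w, R x y w → R w x y := by
    intro x y w h
    have h1 := hrev _ _ _ (ε * x).1 h ((hmem0 x _).2 rfl)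
    -- y ∈ p.2 (ε w) (ε x)
    have h2 := hd ε.1 (ε * w).1 (ε * x).1
    rw [← hmul, ← hmul, hεm, hεm] at h2
    show (ε * y).1 ∈ p.2 w.1 x.1
    rw [← h2]
    exact ⟨y.1, h1, (hmul ε y).symm⟩
  have hR2 : ∀ x y w, R x y w → R y w x := fun x y w h => hR2' _ _ _ (hR2' _ _ _ h)
  have hR3 : ∀ a x y w, R x y w → R (a * x) (a * y) (a * w) := by
    intro a x y w h
    show (ε * (a * w)).1 ∈ p.2 (a * x).1 (a * y).1
    rw [hmul a x, hmul a y, ← hd, mul_left_comm]
    exact ⟨(ε * w).1, h, (hmul _ _).symm⟩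
  let S : Finset (Orb (NZ r)) := Finset.univ.filter (fun o => ∃ x y w, o = mk3 x y w ∧ R x y w)
  have hS : ∀ x y w, mk3 x y w ∈ S ↔ R x y w := by
    intro x y w
    simp only [S, mem_filter, mem_univ, true_and]
    constructor
    · rintro ⟨x', y', w', h, hR⟩
      exact rel_of_mk3_eq R hR1 hR2 hR3 h.symm hR
    · intro h; exact ⟨x, y, w, rfl, h⟩
  refine ⟨S, ?_, ?_⟩
  · funext x y
    by_cases hx : x = 0
    · subst hx; rw [ha0, addS_zero_left]
    by_cases hy : y = 0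
    · subst hy; rw [ha0', addS_comm _ _ _ _ hεε, addS_zero_left]
    lift x to NZ r using hx
    lift y to NZ r using hy
    ext z
    by_cases hz : z = 0
    · subst hz
      rw [zero_mem_addS, hmem0]
      exact Subtype.ext_iff.symm
    · lift z to NZ r using hz
      rw [mem_addS, hS]
      show _ ↔ (ε * (ε * z)).1 ∈ _
      rw [hεm]
  · intro hP o ho
    unfold line at ho
    rw [mem_image] at ho
    obtain ⟨x, -, rfl⟩ := ho
    rw [hS]
    show (ε * x).1 ∈ p.2 (1 : NZ r).1 ε.1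
    rw [hP _ _ (1 : NZ r).2 he]
    trivial

end

end Pool.Agent.TH0.HF
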