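import Pool.Agent.TH0.HF.Cls

set_option autoImplicit false

namespace Pool.Agent.TH0.HF

open Finset

variable {r : ℕ}

theorem mem_iff_pow {K : Type} [Field K] [Finite K] (G : Subgroup Kˣ) (g : Kˣ) : g ∈ G ↔ g ^ Nat.card G = 1 := by
  classical
  have := Fintype.ofFinite K
  have := Fintype.ofFinite Kˣ
  have hpos : 0 < Nat.card G := Nat.card_pos
  have h1 : ((Finset.univ : Finset Kˣ).filter (fun a => a ^ Nat.card G = 1)).card ≤ Nat.card G :=
    IsCyclic.card_pow_eq_one_le hpos
  have h2 : (Finset.univ : Finset Kˣ).filter (fun a => a ∈ G) ⊆ (Finset.univ : Finset Kˣ).filter (fun a => a ^ Nat.card G = 1) := by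
    intro a ha
    rw [mem_filter] at ha ⊢
    refine ⟨mem_univ _, ?_⟩
    have := pow_card_eq_one' (x := (⟨a, ha.2⟩ : G))
    exact congrArg Subtype.val this
  have h3 : ((Finset.univ : Finset Kˣ).filter (fun a => a ∈ G)).card = Nat.card G := by
    rw [← Fintype.card_subtype, Nat.card_eq_fintype_card]
  have h4 := Finset.eq_of_subset_of_card_le h2 (by rw [h3]; exact h1)
  have : g ∈ (Finset.univ : Finset Kˣ).filter (fun a => a ∈ G) ↔ g ∈ (Finset.univ : Finset Kˣ).filter (fun a => a ^ Nat.card G = 1) := by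
    rw [h4]
  simpa using this

theorem card_G {K : Type} [Field K] [Finite K] {p : Str r} {G : Subgroup Kˣ} {f : K → Fin (r+1)}
    (h : QD p K G f) : Nat.card K = 1 + r * Nat.card G := by
  classical
  have := Fintype.ofFinite K
  have h1 := card_field G f h.1 h.2.1 h.2.2.1
  rw [Nat.card_eq_fintype_card, h1]
  congr 2
  have := Fintype.ofFinite Kˣ
  have h2 : Hs G = ((Finset.univ : Finset Kˣ).filter (fun a => a ∈ G)).image (fun g : Kˣ => (g : K)) := by
    ext x
    rw [mem_Hs, mem_image]
    constructor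
    · rintro ⟨g, hg, rfl⟩; exact ⟨g, mem_filter.2 ⟨mem_univ _, hg⟩, rfl⟩
    · rintro ⟨g, hg, rfl⟩; exact ⟨g, (mem_filter.1 hg).2, rfl⟩
  rw [h2, Finset.card_image_of_injective _ Units.val_injective, ← Fintype.card_subtype, Nat.card_eq_fintype_card]

/-- finite fields of the same size give isomorphic quotients -/
theorem iso_of_card {p p' : Str r} (hr : 0 < r) {K K' : Type} [Field K] [Field K'] [Finite K] [Finite K']
    {G : Subgroup Kˣ} {G' : Subgroup K'ˣ} {f : K → Fin (r+1)} {f' : K' → Fin (r+1)}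
    (h : QD p K G f) (h' : QD p' K' G' f') (hc : Nat.card K = Nat.card K') : Iso p p' := by
  classical
  have := Fintype.ofFinite K
  have := Fintype.ofFinite K'
  have hG : Nat.card G = Nat.card G' := by
    rw [card_G h, card_G h'] at hc
    exact Nat.eq_of_mul_eq_mul_left hr (by omega)
  rw [Nat.card_eq_fintype_card, Nat.card_eq_fintype_card] at hc
  let φ : K ≃+* K' := FiniteField.ringEquivOfCardEq hc
  have hmem : ∀ g : Kˣ, g ∈ G ↔ Units.map (φ : K →* K') g ∈ G' := by
    intro g
    rw [mem_iff_pow G, mem_iff_pow G', hG, ← map_pow]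
    constructor
    · intro h1; rw [h1, map_one]
    · intro h1
      have h2 := congrArg (fun u : K'ˣ => (u : K')) h1
      simp only [Units.coe_map, Units.val_one] at h2
      apply Units.ext
      apply φ.injective
      rw [Units.val_one, map_one]
      exact h2
  have hff : ∀ x y : K, f x = f y ↔ f' (φ x) = f' (φ y) := by
    intro x y
    rw [h.2.2.1, h'.2.2.1]
    constructor
    · rintro ⟨g, hg, rfl⟩
      exact ⟨Units.map (φ : K →* K') g, (hmem g).1 hg, by simp⟩
    · rintro ⟨g', hg', e⟩
      refine ⟨Units.map (φ.symm : K' →* K) g', ?_, ?_⟩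
      · rw [hmem]
        convert hg' using 1
        ext
        simp
      · apply φ.injective
        rw [e]
        simp
  choose rep hrep using h.1
  have hinj : Function.Injective (fun a => f' (φ (rep a))) := by
    intro a b hab
    have := (hff _ _).2 hab
    rw [hrep, hrep] at this
    exact this
  let e : Fin (r+1) ≃ Fin (r+1) := Equiv.ofBijective _ (Finite.injective_iff_bijective.1 hinj)
  have he : ∀ x, e (f x) = f' (φ x) := by
    intro x
    show f' (φ (rep (f x))) = f' (φ x)
    rw [← hff, hrep]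
  refine ⟨e, fun a b => ?_⟩
  obtain ⟨x, rfl⟩ := h.1 a
  obtain ⟨y, rfl⟩ := h.1 b
  refine ⟨?_, ?_⟩
  · rw [← h.2.2.2.1, he, he, he, ← h'.2.2.2.1, map_mul]
  · rw [he, he]
    ext z
    rw [h'.mem, Set.mem_image]
    constructor
    · rintro ⟨w, hw, rfl⟩
      obtain ⟨g, hg, k, hk, rfl⟩ := (h.mem _ _ _).1 hw
      refine ⟨Units.map (φ : K →* K') g, (hmem g).1 hg, Units.map (φ : K →* K') k, (hmem k).1 hk, ?_⟩
      rw [he]
      simp
    · rintro ⟨g', hg', k', hk', rfl⟩
      refine ⟨f (φ.symm (φ x * g' + φ y * k')), ?_, ?_⟩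
      · rw [h.mem]
        refine ⟨Units.map (φ.symm : K' →* K) g', ?_, Units.map (φ.symm : K' →* K) k', ?_, ?_⟩
        · rw [hmem]
          convert hg' using 1
          ext
          simp
        · rw [hmem]
          convert hk' using 1
          ext
          simp
        · simp
      · rw [he]
        simp

open Classical in
theorem small_ncard (hr : 0 < r) (N : ℕ) :
    {C : Set (Str r) | ∃ p, (∃ (K : Type) (_ : Field K), ∃ G : Subgroup Kˣ, ∃ f : K → Fin (r+1), QD p K G f ∧
      Finite K ∧ Nat.card K ≤ N) ∧ C = {q | IsQ q ∧ Iso p q}}.ncard ≤ N + 1 := by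
  let D : ℕ → Str r → Prop := fun n p => ∃ (K : Type) (_ : Field K), ∃ G : Subgroup Kˣ, ∃ f : K → Fin (r+1), QD p K G f ∧
      Finite K ∧ Nat.card K = n
  let ψ : ℕ → Set (Str r) := fun n => {q | IsQ q ∧ ∃ p, D n p ∧ Iso p q}
  calc _ ≤ (((Finset.range (N + 1)).image ψ : Finset (Set (Str r))) : Set (Set (Str r))).ncard := by
        apply Set.ncard_le_ncard _ (Set.toFinite _)
        rintro C ⟨p, ⟨K, hK, G, f, hQ, hfin, hcard⟩, rfl⟩
        rw [Finset.mem_coe, mem_image]
        refine ⟨Nat.card K, Finset.mem_range.2 (by omega), ?_⟩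
        ext q
        simp only [ψ, Set.mem_ofPred_eq]
        constructor
        · rintro ⟨hq, p', ⟨K', hK', G', f', hQ', hfin', hcard'⟩, hiso⟩
          exact ⟨hq, (iso_of_card hr hQ hQ' hcard'.symm).trans hiso⟩
        · rintro ⟨hq, hiso⟩
          exact ⟨hq, p, ⟨K, hK, G, f, hQ, hfin, rfl⟩, hiso⟩
    _ = ((Finset.range (N + 1)).image ψ).card := Set.ncard_coe_finset _
    _ ≤ N + 1 := by
        refine Finset.card_image_le.trans ?_
        rw [Finset.card_range]

end Pool.Agent.TH0.HF
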