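import Pool.Agent.TH0.HF.Orb

set_option autoImplicit false

namespace Pool.Agent.TH0.HF

open Finset

/-- labelled structures -/
abbrev Str (r : ℕ) := (Fin (r+1) → Fin (r+1) → Fin (r+1)) × (Fin (r+1) → Fin (r+1) → Set (Fin (r+1)))

/-- multiplicative axioms -/
def IsM {r : ℕ} (m : Fin (r+1) → Fin (r+1) → Fin (r+1)) : Prop :=
  (∃ u : Fin (r+1), u ≠ 0 ∧ ∀ a, m u a = a) ∧
  (∀ a b, m a b = m b a) ∧
  (∀ a b c, m (m a b) c = m a (m b c)) ∧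
  (∀ a, m 0 a = 0) ∧
  (∀ a b, a ≠ 0 → b ≠ 0 → m a b ≠ 0) ∧
  (∀ a, a ≠ 0 → ∃ b, ∀ c, m (m a b) c = c)

/-- hyperfield axioms -/
def IsH {r : ℕ} (p : Str r) : Prop :=
  (∃ u : Fin (r+1), u ≠ 0 ∧ ∀ a, p.1 u a = a) ∧
                (∀ a b, p.1 a b = p.1 b a) ∧
                (∀ a b c, p.1 (p.1 a b) c = p.1 a (p.1 b c)) ∧
                (∀ a, p.1 0 a = 0) ∧
                (∀ a b, a ≠ 0 → b ≠ 0 → p.1 a b ≠ 0) ∧
                (∀ a, a ≠ 0 → ∃ b, ∀ c, p.1 (p.1 a b) c = c) ∧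
                (∀ a b, (p.2 a b).Nonempty) ∧
                (∀ a b, p.2 a b = p.2 b a) ∧
                (∀ a b c, (⋃ x ∈ p.2 a b, p.2 x c) = ⋃ x ∈ p.2 b c, p.2 a x) ∧
                (∀ a, p.2 0 a = {a}) ∧
                (∀ a, ∃! b, (0 : Fin (r+1)) ∈ p.2 a b) ∧
                (∀ a b c d, a ∈ p.2 b c → (0 : Fin (r+1)) ∈ p.2 b d → c ∈ p.2 a d) ∧
                (∀ a b c, (fun x => p.1 a x) '' p.2 b c = p.2 (p.1 a b) (p.1 a c))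

/-- `1 - 1` is everything -/
def PP {r : ℕ} (p : Str r) : Prop :=
  ∀ x y : Fin (r+1), x ≠ 0 → (0 : Fin (r+1)) ∈ p.2 x y → p.2 x y = Set.univ

theorem IsH.isM {r : ℕ} {p : Str r} (h : IsH p) : IsM p.1 :=
  ⟨h.1, h.2.1, h.2.2.1, h.2.2.2.1, h.2.2.2.2.1, h.2.2.2.2.2.1⟩

/-- nonzero elements -/
abbrev NZ (r : ℕ) := {x : Fin (r+1) // x ≠ 0}

/-- the group of nonzero elements -/
noncomputable def grp {r : ℕ} (m : Fin (r+1) → Fin (r+1) → Fin (r+1)) (h : IsM m) : CommGroup (NZ r) :=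
  have hu := h.1.choose_spec
  have hinv : ∀ a : NZ r, ∃ b : NZ r, m b.1 a.1 = h.1.choose := by
    intro a
    obtain ⟨b, hb⟩ := h.2.2.2.2.2 a.1 a.2
    have hb0 : b ≠ 0 := by
      rintro rfl
      have h1 := hb a.1
      rw [h.2.1 a.1 0, h.2.2.2.1, h.2.2.2.1] at h1
      exact a.2 h1.symm
    refine ⟨⟨b, hb0⟩, ?_⟩
    show m b a.1 = _
    have h2 := hb h.1.choose
    rw [h.2.1, hu.2, h.2.1] at h2
    exact h2
  { mul := fun a b => ⟨m a.1 b.1, h.2.2.2.2.1 a.1 b.1 a.2 b.2⟩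
    mul_assoc := fun a b c => Subtype.ext (h.2.2.1 a.1 b.1 c.1)
    one := ⟨h.1.choose, hu.1⟩
    one_mul := fun a => Subtype.ext (hu.2 a.1)
    mul_one := fun a => Subtype.ext ((h.2.1 _ _).trans (hu.2 a.1))
    inv := fun a => (hinv a).choose
    inv_mul_cancel := fun a => Subtype.ext (hinv a).choose_spec
    mul_comm := fun a b => Subtype.ext (h.2.1 a.1 b.1) }

section
variable {A : Type} [CommGroup A]

theorem mk3_swap (x y w : A) : mk3 x y w = mk3 y x w := by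
  rw [mk3_eq_iff]
  refine ⟨Equiv.swap 0 1, 1, fun i => ?_⟩
  rw [one_mul]
  fin_cases i <;> rfl

theorem mk3_rot (x y w : A) : mk3 x y w = mk3 y w x := by
  rw [mk3_eq_iff]
  refine ⟨finRotate 3, 1, fun i => ?_⟩
  rw [one_mul]
  fin_cases i <;> rfl

theorem mk3_smul (a x y w : A) : mk3 (a * x) (a * y) (a * w) = mk3 x y w := by
  symm
  rw [mk3_eq_iff]
  refine ⟨1, a, fun i => ?_⟩
  fin_cases i <;> rfl

theorem perm3 : ∀ σ : Equiv.Perm (Fin 3), (σ 0 = 0 ∧ σ 1 = 1 ∧ σ 2 = 2) ∨ (σ 0 = 0 ∧ σ 1 = 2 ∧ σ 2 = 1) ∨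
    (σ 0 = 1 ∧ σ 1 = 0 ∧ σ 2 = 2) ∨ (σ 0 = 1 ∧ σ 1 = 2 ∧ σ 2 = 0) ∨ (σ 0 = 2 ∧ σ 1 = 0 ∧ σ 2 = 1) ∨
    (σ 0 = 2 ∧ σ 1 = 1 ∧ σ 2 = 0) := by decide

/-- invariant relations descend to orbits -/
theorem rel_of_mk3_eq (R : A → A → A → Prop) (h1 : ∀ x y w, R x y w → R y x w)
    (h2 : ∀ x y w, R x y w → R y w x) (h3 : ∀ a x y w, R x y w → R (a * x) (a * y) (a * w))
    {x y w x' y' w' : A} (h : mk3 x y w = mk3 x' y' w') (hR : R x y w) : R x' y' w' := by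
  obtain ⟨σ, a, h⟩ := (mk3_eq_iff _ _ _ _ _ _).1 h
  have e0 := h 0
  have e1 := h 1
  have e2 := h 2
  simp only [Matrix.cons_val_zero, Matrix.cons_val_one, Matrix.cons_val] at e0 e1 e2
  rw [e0, e1, e2]
  apply h3
  rcases perm3 σ with ⟨s0, s1, s2⟩ | ⟨s0, s1, s2⟩ | ⟨s0, s1, s2⟩ | ⟨s0, s1, s2⟩ | ⟨s0, s1, s2⟩ | ⟨s0, s1, s2⟩ <;>
    rw [s0, s1, s2] <;> simp only [Matrix.cons_val_zero, Matrix.cons_val_one, Matrix.cons_val]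
  · exact hR
  · exact h1 _ _ _ (h2 _ _ _ (h2 _ _ _ hR))
  · exact h1 _ _ _ hR
  · exact h2 _ _ _ hR
  · exact h2 _ _ _ (h2 _ _ _ hR)
  · exact h1 _ _ _ (h2 _ _ _ hR)

end

end Pool.Agent.TH0.HF
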